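import Pool.Agent.V11311.FP.G

/-! The law of the first passage, part H: the limit law. -/

set_option autoImplicit false

namespace Pool.Agent.V11311.FP

open Finset Filter Topology Pool.Agent.V11311.PD Pool.Agent.V11311.PL

open Pool.Agent.Helper894.Collatz (T od)

open Pool.Agent.H377R2 (iter_pos)

theorem HasD.congr {P Q : ℕ → Prop} {l : ℝ} (h : HasD P l) (hPQ : ∀ n, 0 < n → (P n ↔ Q n)) : HasD Q l := by
  unfold HasD at h ⊢
  refine h.congr fun N => ?_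
  have : cN P N = cN Q N := le_antisymm (cN_mono (fun n hn => (hPQ n hn).1) N) (cN_mono (fun n hn => (hPQ n hn).2) N)
  rw [this]

/-- the limit function -/
noncomputable def Lq (q : ℝ → ℝ) (u : ℝ) : ℝ := ∫ v in Set.Ioc 1 (2 * u), q v / v

theorem Lq_zero (q : ℝ → ℝ) : Lq q 0 = 0 := by
  unfold Lq
  rw [mul_zero, Set.Ioc_eq_empty (by norm_num), MeasureTheory.Measure.restrict_empty, MeasureTheory.integral_zero_measure]

theorem TK_lim {q : ℝ → ℝ} (hq : ∀ v, Tendsto (fun K => qK K v) atTop (𝓝 (q v))) {u : ℝ} (hu : 0 ≤ u) (hu1 : u ≤ 1) :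
    Tendsto (fun K => TK (K + 1) u) atTop (𝓝 (Lq q u / 2)) ∧ ∀ K, Lq q u / 2 ≤ TK (K + 1) u := by
  rcases hu.eq_or_lt with rfl | hu0
  · rw [Lq_zero, zero_div]
    refine ⟨?_, fun K => TK_nonneg _ _⟩
    apply tendsto_const_nhds.congr
    intro K
    rw [TK_zero]
  · have h1 := int_lim hq hu0
    obtain ⟨L, h2, h3⟩ := AK_lim u
    have h4 : L = Lq q u := tendsto_nhds_unique h2 h1
    subst h4
    constructor
    · refine (h2.div_const 2).congr fun K => ?_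
      rw [TK_succ K hu0 hu1]
    · intro K
      rw [TK_succ K hu0 hu1]
      exact div_le_div_of_nonneg_right (h3 K) (by norm_num)

/-- the limit law -/
noncomputable def Fq (q : ℝ → ℝ) (u : ℝ) : ℝ := 1 / Real.log (4 / 3) * Lq q u

theorem Fq_one {q : ℝ → ℝ} (hq : ∀ v, Tendsto (fun K => qK K v) atTop (𝓝 (q v))) : 1 ≤ Fq q 1 := by
  have hl43 : 0 < Real.log (4 / 3) := Real.log_pos (by norm_num)
  have h1 := mass (int_lim hq one_pos)
  unfold Fq Lq
  rw [one_div, inv_mul_eq_div, le_div_iff₀ hl43, one_mul]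
  exact h1

/-- lower bounds for the pieces -/
theorem piece {q : ℝ → ℝ} (hq : ∀ v, Tendsto (fun K => qK K v) atTop (𝓝 (q v))) {D : ℕ → ℝ} (hD : IsD D)
    {M r : ℕ} (hr : r < M) (hM : Nat.Coprime M 3) {α β : ℝ} (hα : 0 ≤ α) (hαβ : α ≤ β) (hβ : β ≤ 1) {ε : ℝ} (hε : 0 < ε) :
    ∀ᶠ Y : ℕ in atTop, ∀ l : ℝ,
      HasD (fun n => ∃ z, Fp Y n z ∧ ((α * Y < z ∧ (z : ℝ) ≤ β * Y) ∧ z % M = r)) l →
      (Fq q β - Fq q α) / M - ε ≤ l := by
  have hl43 : 0 < Real.log (4 / 3) := Real.log_pos (by norm_num)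
  have hM0 : (0 : ℝ) < M := by
    have : 0 < M := by omega
    exact_mod_cast this
  rcases hαβ.eq_or_lt with rfl | hlt
  · filter_upwards with Y
    intro l hl
    rw [sub_self, zero_div]
    linarith [hl.nonneg]
  have hβ0 : 0 < β := by linarith
  set κ := 2 / Real.log (4 / 3) with hκ
  have hκ0 : 0 < κ := by positivity
  obtain ⟨e, he, hlow⟩ := lower hr hM
  -- the parameter eta
  obtain ⟨η, hη0, hη1, hη2⟩ : ∃ η : ℝ, 0 < η ∧ α ≤ β * Real.exp (-η) ∧ κ / M * η ≤ ε / 3 := by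
    have t1 : Tendsto (fun η : ℝ => β * Real.exp (-η)) (𝓝[>] 0) (𝓝 β) := by
      have : Tendsto (fun η : ℝ => β * Real.exp (-η)) (𝓝 0) (𝓝 (β * Real.exp (-0))) :=
        (Continuous.tendsto (by fun_prop) 0)
      rw [neg_zero, Real.exp_zero, mul_one] at this
      exact this.mono_left nhdsWithin_le_nhds
    have t2 : Tendsto (fun η : ℝ => κ / M * η) (𝓝[>] 0) (𝓝 0) := by
      have : Tendsto (fun η : ℝ => κ / M * η) (𝓝 0) (𝓝 (κ / M * 0)) :=
        (Continuous.tendsto (by fun_prop) 0)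
      rw [mul_zero] at this
      exact this.mono_left nhdsWithin_le_nhds
    have e1 := t1.eventually_const_lt hlt
    have e2 := t2.eventually_lt_const (by linarith : 0 < ε / 3)
    obtain ⟨η, h1, h2, h3⟩ := (e1.and (e2.and self_mem_nhdsWithin)).exists
    exact ⟨η, h3, h1.le, h2.le⟩
  set β' := β * Real.exp (-η) with hβ'
  have hβ'0 : 0 < β' := by positivity
  have hβ'β : β' < β := by
    rw [hβ']
    have : Real.exp (-η) < 1 := by
      rw [Real.exp_lt_one_iff]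
      linarith
    nlinarith
  obtain ⟨hTα, _⟩ := TK_lim hq hα (by linarith : α ≤ 1)
  obtain ⟨_, hTβ⟩ := TK_lim hq hβ0.le hβ
  have e1 : ∀ᶠ m : ℕ in atTop, e m < ε / 3 := he.eventually_lt_const (by linarith)
  have hseq : Tendsto (fun m : ℕ => 32 * m) atTop atTop := by
    apply tendsto_atTop_mono (f := fun m : ℕ => m) (fun m => by omega) tendsto_id
  have hT2 : Tendsto (fun m : ℕ => κ / M * TK (32 * m + 1) α) atTop (𝓝 (κ / M * (Lq q α / 2))) :=
    (hTα.comp hseq).const_mul (κ / M)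
  have e2 : ∀ᶠ m : ℕ in atTop, κ / M * TK (32 * m + 1) α < κ / M * (Lq q α / 2) + ε / 3 :=
    hT2.eventually_lt_const (by linarith)
  obtain ⟨m, h1, h2, hm⟩ := (e1.and (e2.and (eventually_ge_atTop 1))).exists
  filter_upwards [hlow D hD m hm α β' β hα hη1 hβ'β hβ] with Y hY
  intro l hl
  have h3 := hY l hl
  have h4 := TK_lip (32 * m + 1) hβ'0 hβ'β.le
  have h5 : Real.log (β / β') = η := by
    rw [hβ', Real.log_div hβ0.ne' (by positivity), Real.log_mul hβ0.ne' (Real.exp_pos _).ne', Real.log_exp]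
    ring
  rw [h5] at h4
  have h6 := hTβ (32 * m)
  have h7 : κ / M * (Lq q β / 2 - η) ≤ κ / M * TK (32 * m + 1) β' := by
    apply mul_le_mul_of_nonneg_left _ (by positivity)
    linarith
  have h8 : (Fq q β - Fq q α) / M = κ / M * (Lq q β / 2) - κ / M * (Lq q α / 2) := by
    unfold Fq
    rw [hκ]
    field_simp
  rw [h8]
  rw [mul_sub] at h3 h7
  linarith

/-- THE LIMIT LAW OF THE FIRST PASSAGE -/
theorem law {q : ℝ → ℝ} (hq : ∀ v, Tendsto (fun K => qK K v) atTop (𝓝 (q v))) {M r : ℕ} (hr : r < M)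
    (hM : Nat.Coprime M 3) {u : ℝ} (hu : 0 ≤ u) (hu1 : u ≤ 1) {δ : ℕ → ℝ}
    (hδ : ∀ Y, HasD (fun n => ∃ z, Fp Y n z ∧ ((z : ℝ) ≤ u * Y ∧ z % M = r)) (δ Y)) :
    Tendsto δ atTop (𝓝 (Fq q u / M)) := by
  choose D hD using fun a : ℕ => dens_exists a
  have hD' : IsD D := hD
  have hM0 : 0 < M := by omega
  have hMR : (0 : ℝ) < M := by exact_mod_cast hM0
  have hpos : ∀ Y, HasD (fun n => ∃ z, Fp Y n z ∧ ((0 * (Y : ℝ) < z ∧ (z : ℝ) ≤ u * Y) ∧ z % M = r)) (δ Y) := by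
    intro Y
    apply (hδ Y).congr
    intro n hn
    constructor
    · rintro ⟨z, h1, h2, h3⟩
      refine ⟨z, h1, ⟨?_, h2⟩, h3⟩
      rw [zero_mul]
      obtain ⟨t, ht, _⟩ := h1
      have : 0 < z := by rw [← ht]; exact iter_pos hn t
      exact_mod_cast this
    · rintro ⟨z, h1, ⟨_, h2⟩, h3⟩
      exact ⟨z, h1, h2, h3⟩
  rw [Metric.tendsto_atTop']
  intro ε hε
  have hFq0 : Fq q 0 = 0 := by unfold Fq; rw [Lq_zero, mul_zero]
  have hF1 := Fq_one hq
  set ε' := ε / (4 * M) with hε'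
  have hε'0 : 0 < ε' := by positivity
  have e1 : ∀ᶠ Y : ℕ in atTop, ∀ s ∈ range M, ∀ l : ℝ,
      HasD (fun n => ∃ z, Fp Y n z ∧ ((0 * (Y : ℝ) < z ∧ (z : ℝ) ≤ u * Y) ∧ z % M = s)) l →
      (Fq q u - Fq q 0) / M - ε' ≤ l := by
    rw [Filter.eventually_all_finset]
    intro s hs
    exact piece hq hD' (mem_range.1 hs) hM le_rfl hu hu1 hε'0
  have e2 : ∀ᶠ Y : ℕ in atTop, ∀ s ∈ range M, ∀ l : ℝ,
      HasD (fun n => ∃ z, Fp Y n z ∧ ((u * (Y : ℝ) < z ∧ (z : ℝ) ≤ 1 * Y) ∧ z % M = s)) l →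
      (Fq q 1 - Fq q u) / M - ε' ≤ l := by
    rw [Filter.eventually_all_finset]
    intro s hs
    exact piece hq hD' (mem_range.1 hs) hM hu hu1 le_rfl hε'0
  obtain ⟨N, hN⟩ := eventually_atTop.1 (e1.and e2)
  refine ⟨N, fun Y hY => ?_⟩
  obtain ⟨h1, h2⟩ := hN Y (by omega)
  choose l1 hl1 using fun s : ℕ =>
    fp_dens Y (fun z => (0 * (Y : ℝ) < z ∧ (z : ℝ) ≤ u * Y) ∧ z % M = s)
  choose l2 hl2 using fun s : ℕ =>
    fp_dens Y (fun z => (u * (Y : ℝ) < z ∧ (z : ℝ) ≤ 1 * Y) ∧ z % M = s)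
  have hrr : l1 r = δ Y := tendsto_nhds_unique (hl1 r) (hpos Y)
  -- the total mass
  have htot : ∑ i ∈ (range M).disjSum (range M), Sum.elim l1 l2 i ≤ 1 := by
    apply sum_dens_le _ (fun i => Sum.elim
      (fun s n => ∃ z, Fp Y n z ∧ ((0 * (Y : ℝ) < z ∧ (z : ℝ) ≤ u * Y) ∧ z % M = s))
      (fun s n => ∃ z, Fp Y n z ∧ ((u * (Y : ℝ) < z ∧ (z : ℝ) ≤ 1 * Y) ∧ z % M = s)) i) _ _ _ HasD_true
    · intro i _ n _ _; trivial
    · intro i _
      rcases i with s | s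
      · exact hl1 s
      · exact hl2 s
    · intro i _ j _ hij n _
      rcases i with s | s <;> rcases j with s' | s'
      · rintro ⟨z, h3, h4, h5⟩ ⟨z', h3', h4', h5'⟩
        have := h3.unique h3'
        subst this
        exact hij (by rw [← h5, ← h5'])
      · rintro ⟨z, h3, h4, h5⟩ ⟨z', h3', h4', h5'⟩
        have := h3.unique h3'
        subst this
        linarith [h4.2, h4'.1]
      · rintro ⟨z, h3, h4, h5⟩ ⟨z', h3', h4', h5'⟩
        have := h3.unique h3'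
        subst this
        linarith [h4.1, h4'.2]
      · rintro ⟨z, h3, h4, h5⟩ ⟨z', h3', h4', h5'⟩
        have := h3.unique h3'
        subst this
        exact hij (by rw [← h5, ← h5'])
  rw [sum_disjSum] at htot
  simp only [Sum.elim_inl, Sum.elim_inr] at htot
  have g1 : ∀ s ∈ range M, Fq q u / M - ε' ≤ l1 s := by
    intro s hs
    have := h1 s hs (l1 s) (hl1 s)
    rwa [hFq0, sub_zero] at this
  have g2 : ∀ s ∈ range M, (Fq q 1 - Fq q u) / M - ε' ≤ l2 s := fun s hs => h2 s hs (l2 s) (hl2 s)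
  have g3 : ∑ s ∈ range M, ((Fq q 1 - Fq q u) / M - ε') ≤ ∑ s ∈ range M, l2 s := sum_le_sum g2
  have g4 : l1 r - (Fq q u / M - ε') ≤ ∑ s ∈ range M, (l1 s - (Fq q u / M - ε')) :=
    single_le_sum (f := fun s => l1 s - (Fq q u / M - ε')) (fun s hs => by
      have := g1 s hs
      linarith) (mem_range.2 hr)
  rw [sum_const, card_range, nsmul_eq_mul] at g3
  rw [sum_sub_distrib, sum_const, card_range, nsmul_eq_mul] at g4
  have g5 : (M : ℝ) * ((Fq q 1 - Fq q u) / M - ε') = Fq q 1 - Fq q u - M * ε' := by field_simp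
  have g6 : (M : ℝ) * (Fq q u / M - ε') = Fq q u - M * ε' := by field_simp
  rw [g5] at g3
  rw [g6] at g4
  have g7 : (M : ℝ) * ε' = ε / 4 := by rw [hε']; field_simp
  have g8 : ε' ≤ ε / 4 := by
    have : (1 : ℝ) ≤ M := by exact_mod_cast hM0
    have : 1 * ε' ≤ M * ε' := mul_le_mul_of_nonneg_right this hε'0.le
    linarith
  rw [Real.dist_eq, abs_lt, ← hrr]
  have g9 := g1 r (mem_range.2 hr)
  constructor
  · linarith
  · linarith

/-- the total mass of the limit law is one -/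
theorem Fq_one_eq {q : ℝ → ℝ} (hq : ∀ v, Tendsto (fun K => qK K v) atTop (𝓝 (q v))) : Fq q 1 = 1 := by
  apply le_antisymm _ (Fq_one hq)
  choose δ hδ using fun Y : ℕ => fp_dens Y (fun z => (z : ℝ) ≤ 1 * Y ∧ z % 1 = 0)
  have h1 := law hq (M := 1) (r := 0) one_pos (by norm_num) zero_le_one le_rfl hδ
  rw [Nat.cast_one, div_one] at h1
  apply le_of_tendsto' h1
  intro Y
  have h2 := sum_dens_le ({()} : Finset Unit) (fun _ n => ∃ z, Fp Y n z ∧ ((z : ℝ) ≤ 1 * Y ∧ z % 1 = 0))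
    (fun _ => δ Y) (fun _ _ => hδ Y) (fun i _ j _ hij => absurd (Subsingleton.elim i j) hij) HasD_true
    (fun _ _ _ _ _ => trivial)
  simpa using h2

end Pool.Agent.V11311.FP
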