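import Pool.Agent.V11311.FP.U
import Pool.Agent.V11311.FP.H

/-! Uniform densities of the almost invariant sets, and the uniform law of the first passage. -/

set_option autoImplicit false

namespace Pool.Agent.V11311.FP

open Finset Filter Topology Pool.Agent.V11311.PD Pool.Agent.V11311.PL

open Pool.Agent.Helper894.Collatz (T od)

open Pool.Agent.H377R2 (iter_pos)

open Pool.Agent.H499R2.ND (Td G nat_limit Fd)

open Pool.Agent.H499R2.LT (RF AI RF_FC RF_SpW density_AI RF_sub)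

theorem G_div_le (S : Set ℤ) {X : ℝ} (hX : 1 ≤ X) : 0 ≤ G S X / X ∧ G S X / X ≤ 1 := by
  have h0 : 0 < X := by linarith
  constructor
  · unfold Pool.Agent.H499R2.ND.G; positivity
  · rw [div_le_one h0]
    unfold Pool.Agent.H499R2.ND.G
    have h1 : Pool.Agent.H499R2.ND.pos S X ⊆ Finset.Icc (1 : ℤ) ⌊X⌋ := by
      intro x hx
      rw [Pool.Agent.H499R2.ND.mem_pos] at hx
      rw [Finset.mem_Icc]
      exact ⟨hx.1.1, Int.le_floor.2 hx.1.2.le⟩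
    have h2 := card_le_card h1
    rw [Int.card_Icc] at h2
    have h3 : 0 ≤ ⌊X⌋ := Int.floor_nonneg.2 h0.le
    have h4 : ((⌊X⌋ + 1 - 1).toNat : ℤ) = ⌊X⌋ := by rw [Int.toNat_of_nonneg (by omega)]; ring
    have h5 : (((⌊X⌋ + 1 - 1).toNat : ℕ) : ℝ) = (⌊X⌋ : ℝ) := by exact_mod_cast h4
    calc ((Pool.Agent.H499R2.ND.pos S X).card : ℝ) ≤ ((⌊X⌋ + 1 - 1).toNat : ℕ) := by exact_mod_cast h2
      _ = (⌊X⌋ : ℝ) := h5
      _ ≤ X := Int.floor_le X

theorem G_iter (S : Set ℤ) {l ε X0 : ℝ} (hX0 : 0 < X0) (h : ∀ t : ℝ, Real.log X0 ≤ t → |Fd S t - l| ≤ ε) (n : ℕ) :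
    ∀ X : ℝ, X0 ≤ X → |G S (2 ^ n * X) / (2 ^ n * X) - 3 * l| ≤ |G S X / X - 3 * l| / 2 ^ n + 3 * ε := by
  have hε : 0 ≤ ε := (abs_nonneg _).trans (h _ le_rfl)
  induction n with
  | zero =>
    intro X hX
    simp only [pow_zero, one_mul, div_one]
    linarith
  | succ n ih =>
    intro X hX
    have hX' : 0 < X := by linarith
    have hnX : X0 ≤ 2 ^ n * X := hX.trans (le_mul_of_one_le_left hX'.le (one_le_pow₀ (by norm_num)))
    have hnX0 : 0 < 2 ^ n * X := by positivity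
    have hrec : G S (2 ^ (n + 1) * X) / (2 ^ (n + 1) * X) - 3 * l
        = (G S (2 ^ n * X) / (2 ^ n * X) - 3 * l) / 2 + 3 / 2 * (Fd S (Real.log (2 ^ n * X)) - l) := by
      unfold Pool.Agent.H499R2.ND.Fd
      rw [Real.exp_log hnX0, show (2 : ℝ) ^ (n + 1) * X = 2 * (2 ^ n * X) by ring]
      field_simp
      ring
    have h1 := h (Real.log (2 ^ n * X)) (Real.log_le_log hX0 hnX)
    have h2 := ih X hX
    rw [hrec]
    refine (abs_add_le _ _).trans ?_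
    rw [abs_div, abs_mul, abs_of_pos (by norm_num : (0 : ℝ) < 2), abs_of_pos (by norm_num : (0 : ℝ) < 3 / 2)]
    have h3 : |G S X / X - 3 * l| / 2 ^ (n + 1) = |G S X / X - 3 * l| / 2 ^ n / 2 := by
      rw [pow_succ, div_div]
    rw [h3]
    linarith

/-- uniform natural densities of the almost invariant sets -/
theorem G_unif (ε : ℝ) (hε : 0 < ε) : ∃ Y0 : ℝ, 1 ≤ Y0 ∧ ∀ Y : ℝ, Y0 ≤ Y → ∀ S : Set ℤ, AI 1 (Rg Y) S → ∀ D : ℝ,
    Tendsto (fun X : ℝ => G S X / X) atTop (𝓝 D) → ∀ X : ℝ, Y ^ (1.05 : ℝ) ≤ X → |G S X / X - D| ≤ ε := by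
  obtain ⟨Y1, hY1, h⟩ := Fd_unif (ε / 6) (by positivity)
  have e1 : ∀ᶠ Y : ℝ in atTop, 4 / ε ≤ Y ^ (0.002 : ℝ) :=
    (tendsto_rpow_atTop (by norm_num : (0 : ℝ) < 0.002)).eventually_ge_atTop _
  obtain ⟨Y2, hY2⟩ := eventually_atTop.1 e1
  refine ⟨max Y1 Y2, hY1.trans (le_max_left _ _), ?_⟩
  intro Y hY S hS D hD X hX
  have hYY1 : Y1 ≤ Y := (le_max_left _ _).trans hY
  have h1Y : 1 ≤ Y := hY1.trans hYY1
  have hY0 : 0 < Y := by linarith
  have h2 := hY2 Y ((le_max_right _ _).trans hY)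
  have hl := Fd_lim hD
  set X0 : ℝ := Y ^ (1.048 : ℝ) with hX0
  have hX00 : 0 < X0 := by positivity
  have hX01 : 1 ≤ X0 := Real.one_le_rpow h1Y (by norm_num)
  have hX0X : X0 * Y ^ (0.002 : ℝ) ≤ X := by
    rw [hX0, ← Real.rpow_add hY0]
    norm_num
    norm_num at hX
    exact hX
  have hY002 : 1 ≤ Y ^ (0.002 : ℝ) := Real.one_le_rpow h1Y (by norm_num)
  have hXX0 : X0 ≤ X := (le_mul_of_one_le_right hX00.le hY002).trans hX0X
  have hXpos : 0 < X := by linarith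
  have hFd : ∀ t : ℝ, Real.log X0 ≤ t → |Fd S t - D / 3| ≤ ε / 6 := by
    intro t ht
    apply h Y hYY1 S hS (D / 3) hl t
    rw [hX0, Real.log_rpow hY0] at ht
    exact ht
  -- the number of halvings
  obtain ⟨n, hn1, hn2⟩ : ∃ n : ℕ, 2 ^ n * X0 ≤ X ∧ X < 2 ^ (n + 1) * X0 := by
    obtain ⟨n, hn1, hn2⟩ := exists_nat_pow_near (x := X / X0) (y := 2) (by rw [le_div_iff₀ hX00]; linarith) (by norm_num)
    refine ⟨n, ?_, ?_⟩
    · rwa [le_div_iff₀ hX00] at hn1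
    · rwa [div_lt_iff₀ hX00] at hn2
  have h2n : (0 : ℝ) < 2 ^ n := by positivity
  have hX' : X0 ≤ X / 2 ^ n := by rw [le_div_iff₀ h2n]; linarith
  have h3 := G_iter S hX00 hFd n (X / 2 ^ n) hX'
  rw [mul_div_cancel₀ _ h2n.ne', mul_div_cancel₀ D (by norm_num : (3 : ℝ) ≠ 0)] at h3
  have h4 := G_div_le S (hX01.trans hX')
  have hDle : 0 ≤ D ∧ D ≤ 1 := by
    constructor
    · apply ge_of_tendsto hD
      filter_upwards [eventually_ge_atTop 1] with X hX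
      exact (G_div_le S hX).1
    · apply le_of_tendsto hD
      filter_upwards [eventually_ge_atTop 1] with X hX
      exact (G_div_le S hX).2
  have h5 : |G S (X / 2 ^ n) / (X / 2 ^ n) - D| ≤ 1 := by
    rw [abs_le]; constructor <;> linarith [h4.1, h4.2, hDle.1, hDle.2]
  have h6 : |G S (X / 2 ^ n) / (X / 2 ^ n) - D| / 2 ^ n ≤ ε / 2 := by
    rw [div_le_iff₀ h2n]
    have h7 : Y ^ (0.002 : ℝ) < 2 ^ (n + 1) := by
      have : X0 * Y ^ (0.002 : ℝ) < X0 * 2 ^ (n + 1) := by linarith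
      exact lt_of_mul_lt_mul_left this hX00.le
    rw [pow_succ] at h7
    have h8 : 4 / ε < 2 ^ n * 2 := by linarith
    rw [div_lt_iff₀ hε] at h8
    linarith
  have h9 : 3 * (ε / 6) = ε / 2 := by ring
  rw [h9] at h3
  linarith

/-- the set of a predicate -/
def SP (P : ℕ → Prop) : Set ℤ := {x : ℤ | 0 < x ∧ P x.toNat}

theorem SP_nat (P : ℕ → Prop) (n : ℕ) (hn : 0 < n) : (n : ℤ) ∈ SP P ↔ P n := by
  unfold SP
  rw [Set.mem_ofPred_eq, Int.toNat_natCast]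
  constructor
  · exact fun h => h.2
  · exact fun h => ⟨by exact_mod_cast hn, h⟩

/-- almost invariant predicates -/
def AP (Y : ℕ) (P : ℕ → Prop) : Prop := ∀ n : ℕ, Y < n → (P n ↔ P (T n))

theorem SP_step {Y : ℕ} {P : ℕ → Prop} (h : AP Y P) (n : ℕ) (hn : Y < n) :
    (n : ℤ) ∈ SP P ↔ Td 1 (n : ℤ) ∈ SP P := by
  have hn0 : 0 < n := by omega
  have hT : 0 < T n := by
    have := iter_pos hn0 1
    simpa using this
  have h1 : Td 1 (n : ℤ) = ((T n : ℕ) : ℤ) := by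
    have := Td_iter_nat 1 n
    simpa using this
  rw [h1, SP_nat P n hn0, SP_nat P (T n) hT]
  exact h n hn

theorem SP_AI {Y : ℕ} {P : ℕ → Prop} (h : AP Y P) : AI 1 (Rg Y) (SP P) := by
  intro x hx
  have hx' : (Y : ℝ) < x := by
    by_contra hcon
    push Not at hcon
    exact hx hcon
  have hxZ : (Y : ℤ) < x := by exact_mod_cast hx'
  obtain ⟨n, rfl⟩ := Int.eq_ofNat_of_zero_le (by omega : 0 ≤ x)
  exact SP_step h n (by exact_mod_cast hxZ)

theorem Td_neg {x : ℤ} (hx : x < 0) : Td 1 x < 0 := by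
  unfold Pool.Agent.H499R2.ND.Td
  split_ifs <;> omega

theorem AP_dens {Y : ℕ} {P : ℕ → Prop} (h : AP Y P) :
    ∃ D : ℝ, Tendsto (fun X : ℝ => G (SP P) X / X) atTop (𝓝 D) := by
  set F : Finset ℤ := Icc (0 : ℤ) Y with hF
  apply density_AI (d := 1) odd_one isCoprime_one_left (RF_FC 1 F) (RF_SpW odd_one isCoprime_one_left F)
  intro x hx
  have hxF : x ∉ F := fun h => hx (RF_sub 1 h)
  rw [hF, Finset.mem_Icc] at hxF
  rcases lt_or_ge x 0 with hneg | hnn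
  · have h1 := Td_neg hneg
    unfold SP
    rw [Set.mem_ofPred_eq, Set.mem_ofPred_eq]
    constructor
    · rintro ⟨h2, _⟩; omega
    · rintro ⟨h2, _⟩; omega
  · obtain ⟨n, rfl⟩ := Int.eq_ofNat_of_zero_le hnn
    apply SP_step h n
    by_contra hcon
    apply hxF
    refine ⟨hnn, ?_⟩
    have : n ≤ Y := by omega
    exact_mod_cast this

/-- STABILIZATION: the proportion of an almost invariant set is the same on all long intervals -/
theorem stab (ε : ℝ) (hε : 0 < ε) : ∃ Y0 : ℕ, ∀ Y : ℕ, Y0 ≤ Y → ∀ P : ℕ → Prop, AP Y P →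
    ∃ D : ℝ, HasD P D ∧ ∀ N : ℕ, (Y : ℝ) ^ (1.05 : ℝ) ≤ N → |(cN P N : ℝ) / N - D| ≤ ε := by
  obtain ⟨Y1, hY1, h⟩ := G_unif (ε / 2) (by positivity)
  obtain ⟨Y0, hY0⟩ := exists_nat_ge (max Y1 (2 / ε))
  refine ⟨Y0, ?_⟩
  intro Y hY P hP
  obtain ⟨D, hD⟩ := AP_dens hP
  refine ⟨D, HasD.of_set (SP_nat P) hD, ?_⟩
  intro N hN
  have hYR : (Y0 : ℝ) ≤ Y := by exact_mod_cast hY
  have hYY1 : Y1 ≤ Y := (le_max_left _ _).trans (hY0.trans hYR)
  have hYε : 2 / ε ≤ Y := (le_max_right _ _).trans (hY0.trans hYR)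
  have h1Y : (1 : ℝ) ≤ Y := hY1.trans hYY1
  have hYN : (Y : ℝ) ≤ N := by
    calc (Y : ℝ) = (Y : ℝ) ^ (1 : ℝ) := (Real.rpow_one _).symm
      _ ≤ (Y : ℝ) ^ (1.05 : ℝ) := Real.rpow_le_rpow_of_exponent_le h1Y (by norm_num)
      _ ≤ N := hN
  have hN0 : (0 : ℝ) < N := by linarith
  have h1 := h Y hYY1 (SP P) (SP_AI hP) D hD (N + 1) (by linarith)
  rw [cN_eq (SP_nat P) N]
  have h2 := G_div_le (SP P) (by linarith : (1 : ℝ) ≤ N + 1)
  have h3 : G (SP P) (N + 1) / N = G (SP P) (N + 1) / (N + 1) + G (SP P) (N + 1) / (N + 1) * (1 / N) := by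
    field_simp
  have h4 : G (SP P) (N + 1) / (N + 1) * (1 / N) ≤ ε / 2 := by
    have h5 : 1 / (N : ℝ) ≤ ε / 2 := by
      rw [div_le_iff₀ hN0]
      rw [div_le_iff₀ hε] at hYε
      have : (Y : ℝ) * ε ≤ N * ε := mul_le_mul_of_nonneg_right hYN hε.le
      linarith
    calc G (SP P) (N + 1) / (N + 1) * (1 / N) ≤ 1 * (1 / N) := mul_le_mul_of_nonneg_right h2.2 (by positivity)
      _ ≤ ε / 2 := by rw [one_mul]; exact h5
  have h6 : 0 ≤ G (SP P) (N + 1) / (N + 1) * (1 / (N : ℝ)) := mul_nonneg h2.1 (by positivity)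
  rw [h3]
  rw [abs_le] at h1 ⊢
  constructor <;> linarith [h1.1, h1.2]

theorem Fp_AP (Y : ℕ) (A : ℕ → Prop) : AP Y fun n => ∃ z, Fp Y n z ∧ A z := by
  intro n hn
  constructor
  · rintro ⟨z, ⟨t, h1, h2, h3⟩, hz⟩
    refine ⟨z, ?_, hz⟩
    cases t with
    | zero =>
      simp only [Function.iterate_zero, id] at h1
      omega
    | succ t =>
      refine ⟨t, by rwa [Function.iterate_succ_apply] at h1, h2, fun i hi => ?_⟩
      have := h3 (i + 1) (by omega)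
      rwa [Function.iterate_succ_apply] at this
  · rintro ⟨z, ⟨t, h1, h2, h3⟩, hz⟩
    refine ⟨z, ⟨t + 1, by rw [Function.iterate_succ_apply]; exact h1, h2, fun i hi => ?_⟩, hz⟩
    cases i with
    | zero => exact hn
    | succ i =>
      rw [Function.iterate_succ_apply]
      exact h3 i (by omega)

/-- THE UNIFORM LAW OF THE FIRST PASSAGE -/
theorem law_unif {q : ℝ → ℝ} (hq : ∀ v, Tendsto (fun K => qK K v) atTop (𝓝 (q v))) {M r : ℕ} (hr : r < M)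
    (hM : Nat.Coprime M 3) {u : ℝ} (hu : 0 ≤ u) (hu1 : u ≤ 1) (ε : ℝ) (hε : 0 < ε) :
    ∃ Y0 : ℕ, ∀ Y : ℕ, Y0 ≤ Y → ∀ N : ℕ, (Y : ℝ) ^ (1.05 : ℝ) ≤ N →
      |(cN (fun n => ∃ z, Fp Y n z ∧ ((z : ℝ) ≤ u * Y ∧ z % M = r)) N : ℝ) / N - Fq q u / M| ≤ ε := by
  choose δ hδ using fun Y : ℕ => fp_dens Y (fun z => (z : ℝ) ≤ u * Y ∧ z % M = r)
  have h1 := law hq hr hM hu hu1 hδ
  rw [Metric.tendsto_atTop] at h1
  obtain ⟨Y1, hY1⟩ := h1 (ε / 2) (by positivity)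
  obtain ⟨Y2, hY2⟩ := stab (ε / 2) (by positivity)
  refine ⟨max Y1 Y2, fun Y hY N hN => ?_⟩
  have h2 := hY1 Y ((le_max_left _ _).trans hY)
  obtain ⟨D, hD, h3⟩ := hY2 Y ((le_max_right _ _).trans hY) _ (Fp_AP Y (fun z => (z : ℝ) ≤ u * Y ∧ z % M = r))
  have h4 : D = δ Y := tendsto_nhds_unique hD (hδ Y)
  have h5 := h3 N hN
  rw [Real.dist_eq] at h2
  rw [h4] at h5
  rw [abs_le] at h5 ⊢
  rw [abs_lt] at h2
  constructor <;> linarith [h5.1, h5.2, h2.1, h2.2]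

end Pool.Agent.V11311.FP
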