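import Pool.Agent.V11311.PL.D

/-! The law of the first passage, part A: densities of the first passage sets. -/

set_option autoImplicit false

namespace Pool.Agent.V11311.FP

open Finset Filter Topology Pool.Agent.V11311.PD Pool.Agent.V11311.PL

open Pool.Agent.Helper894.Collatz (T od)

open Pool.Agent.H377R2 (iter_pos)

open Pool.Agent.H499R2.ND (Td G nat_limit)

open Pool.Agent.H499R2.LT (PF Hit RF AI AI_PF RF_FC RF_SpW density_AI)

open scoped Classical in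
/-- number of the `n ≤ N` with `P n` -/
noncomputable def cN (P : ℕ → Prop) (N : ℕ) : ℕ := ((Icc 1 N).filter P).card

/-- natural density -/
def HasD (P : ℕ → Prop) (l : ℝ) : Prop := Tendsto (fun N : ℕ => (cN P N : ℝ) / N) atTop (𝓝 l)

theorem cN_eq {P : ℕ → Prop} {S : Set ℤ} (h : ∀ n : ℕ, 0 < n → ((n : ℤ) ∈ S ↔ P n)) (N : ℕ) :
    (cN P N : ℝ) = G S ((N : ℝ) + 1) := by
  classical
  unfold cN Pool.Agent.H499R2.ND.G
  have h : Pool.Agent.H499R2.ND.pos S ((N : ℝ) + 1)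
      = ((Icc 1 N).filter P).image (fun n : ℕ => (n : ℤ)) := by
    ext z
    rw [Pool.Agent.H499R2.ND.mem_pos, mem_image]
    constructor
    · rintro ⟨⟨h1, h2⟩, h3⟩
      obtain ⟨n, rfl⟩ := Int.eq_ofNat_of_zero_le (by omega : 0 ≤ z)
      refine ⟨n, ?_, rfl⟩
      rw [mem_filter, mem_Icc]
      refine ⟨⟨by omega, ?_⟩, (h n (by omega)).1 h3⟩
      have h4 : (n : ℝ) < N + 1 := by exact_mod_cast h2
      have h5 : n < N + 1 := by exact_mod_cast h4
      omega
    · rintro ⟨n, hn, rfl⟩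
      rw [mem_filter, mem_Icc] at hn
      refine ⟨⟨by omega, ?_⟩, (h n (by omega)).2 hn.2⟩
      have : n < N + 1 := by omega
      exact_mod_cast this
  rw [h, card_image_of_injective _ Nat.cast_injective]

theorem HasD.of_set {P : ℕ → Prop} {S : Set ℤ} (h : ∀ n : ℕ, 0 < n → ((n : ℤ) ∈ S ↔ P n)) {l : ℝ}
    (hl : Tendsto (fun X : ℝ => G S X / X) atTop (𝓝 l)) : HasD P l := by
  have h1 := nat_limit hl
  refine h1.congr fun N => ?_
  rw [cN_eq h]

/-- `z` is the first term `≤ Y` of the trajectory of `n` -/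
def Fp (Y n z : ℕ) : Prop := ∃ t : ℕ, T^[t] n = z ∧ z ≤ Y ∧ ∀ i < t, Y < T^[i] n

theorem Fp.unique {Y n z z' : ℕ} (h : Fp Y n z) (h' : Fp Y n z') : z = z' := by
  obtain ⟨t, h1, h2, h3⟩ := h
  obtain ⟨t', h1', h2', h3'⟩ := h'
  rcases lt_trichotomy t t' with hlt | heq | hlt
  · have := h3' t hlt
    omega
  · rw [← h1, ← h1', heq]
  · have := h3 t' hlt
    omega

theorem hit_iff (Y n z : ℕ) (hn : 0 < n) (j : ℕ) :
    Hit 1 (Icc (0 : ℤ) Y) (z : ℤ) (n : ℤ) j ↔ (T^[j] n = z ∧ z ≤ Y ∧ ∀ i < j, Y < T^[i] n) := by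
  unfold Pool.Agent.H499R2.LT.Hit
  rw [Td_iter_nat]
  constructor
  · rintro ⟨h1, h2, h3⟩
    rw [mem_Icc] at h2
    refine ⟨by exact_mod_cast h1, by exact_mod_cast h2.2, ?_⟩
    intro i hi
    have h4 := h3 i hi
    rw [Td_iter_nat, mem_Icc] at h4
    by_contra hcon
    apply h4
    refine ⟨Int.natCast_nonneg _, ?_⟩
    have : T^[i] n ≤ Y := by omega
    exact_mod_cast this
  · rintro ⟨h1, h2, h3⟩
    refine ⟨by exact_mod_cast h1, ?_, ?_⟩
    · rw [mem_Icc]
      exact ⟨Int.natCast_nonneg _, by exact_mod_cast h2⟩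
    · intro i hi h4
      rw [Td_iter_nat, mem_Icc] at h4
      have h5 : T^[i] n ≤ Y := by exact_mod_cast h4.2
      have := h3 i hi
      omega

/-- the first passage sets have natural densities -/
theorem fp_dens (Y : ℕ) (A : ℕ → Prop) : ∃ l : ℝ, HasD (fun n => ∃ z, Fp Y n z ∧ A z) l := by
  set F : Finset ℤ := Icc (0 : ℤ) Y with hF
  set S : Set ℤ := {x : ℤ | ∃ z : ℕ, A z ∧ x ∈ PF 1 F (z : ℤ)} with hS
  have hAI : AI 1 (RF 1 F) S := by
    intro x hx
    constructor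
    · rintro ⟨z, hz, h⟩
      exact ⟨z, hz, (AI_PF 1 F z x hx).1 h⟩
    · rintro ⟨z, hz, h⟩
      exact ⟨z, hz, (AI_PF 1 F z x hx).2 h⟩
  obtain ⟨l, hl⟩ := density_AI (d := 1) odd_one isCoprime_one_left (RF_FC 1 F)
    (RF_SpW odd_one isCoprime_one_left F) hAI
  refine ⟨l, HasD.of_set (S := S) ?_ hl⟩
  intro n hn
  constructor
  · rintro ⟨z, hz, j, hj⟩
    exact ⟨z, ⟨j, (hit_iff Y n z hn j).1 hj⟩, hz⟩
  · rintro ⟨z, ⟨j, hj⟩, hz⟩
    exact ⟨z, hz, j, (hit_iff Y n z hn j).2 hj⟩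

theorem cN_mono {P Q : ℕ → Prop} (h : ∀ n, 0 < n → P n → Q n) (N : ℕ) : cN P N ≤ cN Q N := by
  classical
  unfold cN
  apply card_le_card
  intro n hn
  rw [mem_filter, mem_Icc] at hn ⊢
  exact ⟨hn.1, h n (by omega) hn.2⟩

theorem cN_le (P : ℕ → Prop) (N : ℕ) : cN P N ≤ N := by
  classical
  unfold cN
  refine (card_filter_le _ _).trans ?_
  rw [Nat.card_Icc, Nat.add_sub_cancel]

/-- finitely many disjoint sets -/
theorem sum_dens_le {ι : Type*} (s : Finset ι) (P : ι → ℕ → Prop) (l : ι → ℝ) (h : ∀ i ∈ s, HasD (P i) (l i))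
    (hdis : ∀ i ∈ s, ∀ j ∈ s, i ≠ j → ∀ n, 0 < n → P i n → ¬ P j n) {Q : ℕ → Prop} {L : ℝ} (hQ : HasD Q L)
    (hPQ : ∀ i ∈ s, ∀ n, 0 < n → P i n → Q n) : ∑ i ∈ s, l i ≤ L := by
  classical
  have h1 : Tendsto (fun N : ℕ => ∑ i ∈ s, (cN (P i) N : ℝ) / N) atTop (𝓝 (∑ i ∈ s, l i)) :=
    tendsto_finsetSum _ h
  apply le_of_tendsto_of_tendsto' h1 hQ
  intro N
  rw [← sum_div]
  apply div_le_div_of_nonneg_right _ (Nat.cast_nonneg _)
  have h2 : ∑ i ∈ s, cN (P i) N ≤ cN Q N := by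
    unfold cN
    rw [← card_biUnion]
    · apply card_le_card
      intro n hn
      rw [mem_biUnion] at hn
      obtain ⟨i, hi, hn⟩ := hn
      rw [mem_filter, mem_Icc] at hn ⊢
      exact ⟨hn.1, hPQ i hi n (by omega) hn.2⟩
    · intro i hi j hj hij
      rw [Function.onFun, Finset.disjoint_left]
      intro n hn hn'
      rw [mem_filter, mem_Icc] at hn hn'
      exact hdis i hi j hj hij n (by omega) hn.2 hn'.2
  exact_mod_cast h2

theorem HasD.nonneg {P : ℕ → Prop} {l : ℝ} (h : HasD P l) : 0 ≤ l :=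
  ge_of_tendsto' h fun N => by positivity

theorem HasD_true : HasD (fun _ => True) 1 := by
  unfold HasD
  have h1 : ∀ᶠ N : ℕ in atTop, (1 : ℝ) = (cN (fun _ => True) N : ℝ) / N := by
    filter_upwards [eventually_gt_atTop 0] with N hN
    have : cN (fun _ => True) N = N := by
      classical
      unfold cN
      simp
    rw [this, div_self]
    exact_mod_cast hN.ne'
  exact tendsto_const_nhds.congr' h1

theorem IsD.hasD {D : ℕ → ℝ} (h : IsD D) (a : ℕ) : HasD (fun n => Vis n a) (D a) := by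
  have := h.lim a
  unfold HasD
  exact this

/-- the launching points: exactly `K` steps before the first passage, not reached from `[1, Y]` -/
def Lau (Y K : ℕ) (A : ℕ → Prop) (c : ℕ) : Prop :=
  (∀ j < K, Y < T^[j] c) ∧ T^[K] c ≤ Y ∧ A (T^[K] c) ∧ ¬ ∃ b : ℕ, 0 < b ∧ b ≤ Y ∧ ∃ j : ℕ, T^[j] b = c

theorem launch {Y K : ℕ} {A : ℕ → Prop} {X : Finset ℕ} (hX : ∀ c ∈ X, Lau Y K A c) {D : ℕ → ℝ} (hD : IsD D)
    {l : ℝ} (hl : HasD (fun n => ∃ z, Fp Y n z ∧ A z) l) : ∑ c ∈ X, D c ≤ l := by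
  have key : ∀ c ∈ X, ∀ n, 0 < n → ∀ i, T^[i] n = c → ∀ i' < i + K, Y < T^[i'] n := by
    intro c hc n hn i hi i' hi'
    obtain ⟨h1, h2, h3, h4⟩ := hX c hc
    by_contra hcon
    rcases lt_or_ge i' i with hlt | hge
    · apply h4
      refine ⟨T^[i'] n, iter_pos hn i', by omega, i - i', ?_⟩
      rw [← Function.iterate_add_apply, show i - i' + i' = i by omega, hi]
    · have h5 := h1 (i' - i) (by omega)
      rw [← hi, ← Function.iterate_add_apply, show i' - i + i = i' by omega] at h5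
      exact hcon h5
  apply sum_dens_le X (fun c n => Vis n c) D (fun c _ => IsD.hasD hD c) _ hl
  · rintro c hc n hn ⟨i, hi⟩
    obtain ⟨h1, h2, h3, h4⟩ := hX c hc
    refine ⟨T^[K] c, ⟨K + i, ?_, h2, ?_⟩, h3⟩
    · rw [Function.iterate_add_apply, hi]
    · intro i' hi'
      exact key c hc n hn i hi i' (by omega)
  · -- disjointness
    have main : ∀ c ∈ X, ∀ c' ∈ X, ∀ n, 0 < n → ∀ i i', T^[i] n = c → T^[i'] n = c' → ¬ i < i' := by
      intro c hc c' hc' n hn i i' hi hi' hlt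
      obtain ⟨h1, h2, h3, h4⟩ := hX c hc
      have h5 := key c' hc' n hn i' hi' (i + K) (by omega)
      rw [add_comm, Function.iterate_add_apply, hi] at h5
      omega
    rintro c hc c' hc' hne n hn ⟨i, hi⟩ ⟨i', hi'⟩
    rcases lt_trichotomy i i' with h | h | h
    · exact main c hc c' hc' n hn i i' hi hi' h
    · subst h
      exact hne (hi.symm.trans hi')
    · exact main c' hc' c hc n hn i' i hi' hi h

end Pool.Agent.V11311.FP
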