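import Pool.Agent.V11311.FP.A
import Pool.Agent.H377R2.Stuck

/-! The law of the first passage, part B: good integers reached from far below. -/

set_option autoImplicit false

namespace Pool.Agent.V11311.FP

open Finset Filter Topology Pool.Agent.V11311.PD Pool.Agent.V11311.PL

open Pool.Agent.Helper894.Collatz (T od)

open Pool.Agent.H377R2 (iter_pos sum_pow_od_block)

open Pool.Agent.H319R2.Lln (mu mu_lower)

/-- the rate of the Chernoff bound -/
noncomputable def rh : ℝ := (1 + Real.sqrt 3) / (2 * Real.sqrt 2)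

theorem rh_pos : 0 < rh := by unfold rh; positivity

theorem rh_sq : rh ^ 2 = (2 + Real.sqrt 3) / 4 := by
  unfold rh
  rw [div_pow, mul_pow, Real.sq_sqrt (by norm_num), add_sq, Real.sq_sqrt (by norm_num)]
  ring

theorem sqrt3_le : Real.sqrt 3 ≤ 1.7321 := by
  rw [Real.sqrt_le_left (by norm_num)]
  norm_num

theorem rh_sq_le : rh ^ 2 ≤ 0.93303 := by
  rw [rh_sq]
  have := sqrt3_le
  linarith

theorem rh_lt : rh < 1 := by
  by_contra hcon
  push Not at hcon
  have h1 := rh_sq_le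
  nlinarith

/-- few integers climb -/
theorem climb {Z y : ℝ} (hy : 0 < y) {j : ℕ} (hj : (2 : ℝ) ^ j ≤ Z) (S : Finset ℕ)
    (hS : ∀ b ∈ S, (b : ℝ) ≤ Z ∧ 2 ^ j * y ≤ 2 * (3 ^ od j b * b)) :
    (S.card : ℝ) ≤ Real.sqrt (2 * Z / y) * (2 * Z) * rh ^ j := by
  have hZ : 0 < Z := lt_of_lt_of_le (by positivity) hj
  set c : ℕ := ⌊Z / 2 ^ j⌋₊ + 1 with hc
  have h2j : (0 : ℝ) < 2 ^ j := by positivity
  have hc1 : Z / 2 ^ j < c := by rw [hc]; push_cast; exact Nat.lt_floor_add_one _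
  have hc2 : (c : ℝ) ≤ 2 * Z / 2 ^ j := by
    have h1 : (⌊Z / 2 ^ j⌋₊ : ℝ) ≤ Z / 2 ^ j := Nat.floor_le (by positivity)
    have h2 : 1 ≤ Z / 2 ^ j := by rw [le_div_iff₀ h2j]; linarith
    rw [hc]; push_cast
    have h3 : 2 * Z / 2 ^ j = Z / 2 ^ j + Z / 2 ^ j := by ring
    rw [h3]; linarith
  have hsub : S ⊆ range (2 ^ j * c) := by
    intro b hb
    rw [mem_range]
    have h1 := (hS b hb).1
    have h2 : (b : ℝ) < 2 ^ j * c := by
      rw [div_lt_iff₀ h2j] at hc1
      linarith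
    exact_mod_cast h2
  set A : ℝ := Real.sqrt (2 * Z / (2 ^ j * y)) with hA
  have hA0 : 0 ≤ A := Real.sqrt_nonneg _
  have hterm : ∀ b ∈ S, (1 : ℝ) ≤ A * Real.sqrt 3 ^ od j b := by
    intro b hb
    obtain ⟨h1, h2⟩ := hS b hb
    have h3 : Real.sqrt 3 ^ od j b = Real.sqrt (3 ^ od j b) := by
      rw [eq_comm, Real.sqrt_eq_iff_mul_self_eq (by positivity) (by positivity), ← mul_pow, Real.mul_self_sqrt (by norm_num)]
    rw [h3, hA, ← Real.sqrt_mul (by positivity)]
    rw [Real.one_le_sqrt, div_mul_eq_mul_div, le_div_iff₀ (by positivity), one_mul]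
    have h4 : (3 : ℝ) ^ od j b * b ≤ 3 ^ od j b * Z := mul_le_mul_of_nonneg_left h1 (by positivity)
    linarith
  have h1 : (S.card : ℝ) ≤ A * (c * (1 + Real.sqrt 3) ^ j) := by
    calc (S.card : ℝ) = ∑ b ∈ S, (1 : ℝ) := by simp
      _ ≤ ∑ b ∈ S, A * Real.sqrt 3 ^ od j b := sum_le_sum hterm
      _ ≤ ∑ b ∈ range (2 ^ j * c), A * Real.sqrt 3 ^ od j b :=
          sum_le_sum_of_subset_of_nonneg hsub (fun b _ _ => by positivity)
      _ = A * (c * (1 + Real.sqrt 3) ^ j) := by rw [← mul_sum, sum_pow_od_block]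
  have hA2 : A = Real.sqrt (2 * Z / y) / Real.sqrt 2 ^ j := by
    rw [hA, show 2 * Z / (2 ^ j * y) = (2 * Z / y) / 2 ^ j by field_simp, Real.sqrt_div (by positivity)]
    congr 1
    rw [Real.sqrt_eq_iff_mul_self_eq (by positivity) (by positivity), ← mul_pow, Real.mul_self_sqrt (by norm_num)]
  calc (S.card : ℝ) ≤ A * (c * (1 + Real.sqrt 3) ^ j) := h1
    _ ≤ A * (2 * Z / 2 ^ j * (1 + Real.sqrt 3) ^ j) := by
        apply mul_le_mul_of_nonneg_left _ hA0
        exact mul_le_mul_of_nonneg_right hc2 (by positivity)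
    _ = Real.sqrt (2 * Z / y) * (2 * Z) * rh ^ j := by
        rw [hA2]
        unfold rh
        rw [div_pow, mul_pow]
        field_simp

theorem reach : ∃ C : ℝ, 0 < C ∧ ∀ m : ℕ, ∀ᶠ y : ℝ in atTop, ∀ S : Finset ℕ,
    (∀ c ∈ S, (y < c ∧ (c : ℝ) ≤ 2 * y) ∧ c ∈ Gs ∧ ∃ b : ℕ, 0 < b ∧ (b : ℝ) ≤ y / 4 ^ m ∧ ∃ j : ℕ, T^[j] b = c) →
    (S.card : ℝ) ≤ C * (y / 8 ^ m) := by
  have hrh := rh_lt
  have hrh0 := rh_pos
  refine ⟨1 + 4 / (1 - rh), by have : 0 < 1 - rh := by linarith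
                               positivity, ?_⟩
  intro m
  have h4m : (0 : ℝ) < 4 ^ m := by positivity
  have ht : Tendsto (fun y : ℝ => y / 4 ^ m) atTop atTop := tendsto_id.atTop_div_const h4m
  have e1 := ht.eventually (typ_card (1 / 100) 3 (by norm_num) (by norm_num))
  have e2 : ∀ᶠ y : ℝ in atTop, ‖Real.log y‖ ≤ 1 * ‖y ^ (1 / 20 : ℝ)‖ :=
    (isLittleO_log_rpow_atTop (by norm_num : (0 : ℝ) < 1 / 20)).bound one_pos
  have e3 : ∀ᶠ y : ℝ in atTop, 2176 * 2 ^ m ≤ Real.log y := Real.tendsto_log_atTop.eventually_ge_atTop _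
  have e4 : ∀ᶠ y : ℝ in atTop, (4 : ℝ) ^ m ≤ y ^ (19 / 20 : ℝ) :=
    (tendsto_rpow_atTop (by norm_num : (0 : ℝ) < 19 / 20)).eventually_ge_atTop _
  have e5 : ∀ᶠ y : ℝ in atTop, (4 : ℝ) ^ m ≤ y ^ (1 / 2 : ℝ) :=
    (tendsto_rpow_atTop (by norm_num : (0 : ℝ) < 1 / 2)).eventually_ge_atTop _
  filter_upwards [e1, e2, e3, e4, e5, eventually_ge_atTop 4] with y h1 h2 h3 h4 h5 h6
  intro S hS
  classical
  have hy0 : 0 < y := by linarith
  have h2m : (1 : ℝ) ≤ 2 ^ m := one_le_pow₀ (by norm_num)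
  have hlog : 2176 ≤ Real.log y := by linarith
  have hlog0 : 0 < Real.log y := by linarith
  rw [Real.norm_of_nonneg hlog0.le, Real.norm_of_nonneg (by positivity), one_mul] at h2
  set Z : ℝ := y / 4 ^ m with hZ
  have hZ0 : 0 < Z := by positivity
  have hZy : Z ≤ y := div_le_self hy0.le (one_le_pow₀ (by norm_num))
  have hsqZ : Real.sqrt y ≤ Z := by
    rw [hZ, le_div_iff₀ h4m, Real.sqrt_eq_rpow]
    calc y ^ (1 / 2 : ℝ) * 4 ^ m ≤ y ^ (1 / 2 : ℝ) * y ^ (1 / 2 : ℝ) := mul_le_mul_of_nonneg_left h5 (by positivity)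
      _ = y := by rw [← Real.rpow_add hy0]; norm_num
  have hlogZ : Real.log y / 2 ≤ Real.log Z := by
    rw [← Real.log_sqrt hy0.le]
    exact Real.log_le_log (by positivity) hsqZ
  have hZq : Z ^ (1 / 4 : ℝ) ≤ Real.sqrt y := by
    rw [Real.sqrt_eq_rpow]
    calc Z ^ (1 / 4 : ℝ) ≤ y ^ (1 / 4 : ℝ) := Real.rpow_le_rpow hZ0.le hZy (by norm_num)
      _ ≤ y ^ (1 / 2 : ℝ) := Real.rpow_le_rpow_of_exponent_le (by linarith) (by norm_num)
  have hch : ∀ c : ℕ, ∃ b j : ℕ, c ∈ S → 0 < b ∧ (b : ℝ) ≤ Z ∧ T^[j] b = c := by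
    intro c
    by_cases hc : c ∈ S
    · obtain ⟨_, _, b, hb, hbZ, j, hj⟩ := hS c hc
      exact ⟨b, j, fun _ => ⟨hb, hbZ, hj⟩⟩
    · exact ⟨0, 0, fun h => absurd h hc⟩
  choose b j hbj using hch
  -- the atypical starting points
  obtain ⟨J, hJ⟩ : ∃ J : ℕ, J = ⌈16 * Real.log y⌉₊ := ⟨_, rfl⟩
  have hJ1 : 16 * Real.log y ≤ J := by rw [hJ]; exact Nat.le_ceil _
  have hJ2 : (J : ℝ) ≤ 17 * Real.log y := by
    rw [hJ]
    have := Nat.ceil_lt_add_one (by positivity : 0 ≤ 16 * Real.log y)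
    linarith
  have hnice := Gd_nice (ε := 1 / 10) le_rfl (by linarith : (2 : ℝ) ≤ y) hJ1
  set S1 := S.filter fun c => ¬ Typ (1 / 100) (Z ^ (1 / 4 : ℝ)) (b c) with hS1
  set S2 := S.filter fun c => Typ (1 / 100) (Z ^ (1 / 4 : ℝ)) (b c) with hS2
  have hcard : S1.card + S2.card = S.card := by
    rw [hS1, hS2, add_comm]
    exact card_filter_add_card_filter_not (fun c => Typ (1 / 100) (Z ^ (1 / 4 : ℝ)) (b c))
  have c1 : (S1.card : ℝ) ≤ y / 8 ^ m := by
    have hB := h1 (S1.image b) (fun n hn => by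
      rw [mem_image] at hn
      obtain ⟨c, hc, rfl⟩ := hn
      rw [hS1, mem_filter] at hc
      obtain ⟨a1, a2, a3⟩ := hbj c hc.1
      exact ⟨a1, a2, hc.2⟩)
    have hsub : S1 ⊆ (S1.image b).biUnion fun b0 => S.filter fun c => ∃ j : ℕ, T^[j] b0 = c := by
      intro c hc
      rw [mem_biUnion]
      refine ⟨b c, mem_image_of_mem b hc, ?_⟩
      rw [mem_filter]
      have hc' : c ∈ S := (mem_filter.1 hc).1
      exact ⟨hc', j c, (hbj c hc').2.2⟩
    have h7 : S1.card ≤ (S1.image b).card * J := by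
      calc S1.card ≤ _ := card_le_card hsub
        _ ≤ ∑ b0 ∈ S1.image b, (S.filter fun c => ∃ j : ℕ, T^[j] b0 = c).card := card_biUnion_le
        _ ≤ ∑ b0 ∈ S1.image b, J := by
            apply sum_le_sum
            intro b0 _
            apply visits hnice _ (fun c hc => ?_) (fun c hc => ?_) b0 (fun c hc => (mem_filter.1 hc).2)
            · have := hS c (mem_filter.1 hc).1
              exact Gs_sub this.1.1 this.1.2 this.2.1
            · have := (hS c (mem_filter.1 hc).1).1.1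
              have : (0 : ℝ) < c := by linarith
              exact_mod_cast this
        _ = (S1.image b).card * J := by rw [sum_const, smul_eq_mul]
    have h8 : (S1.card : ℝ) ≤ (S1.image b).card * J := by exact_mod_cast h7
    have hlZ : 0 < Real.log Z := by linarith
    have h9 : (Z / Real.log Z ^ (3 : ℝ)) ≤ 8 * (Z / Real.log y ^ 3) := by
      rw [show Real.log Z ^ (3 : ℝ) = Real.log Z ^ (3 : ℕ) by norm_cast, mul_div_assoc',
        div_le_div_iff₀ (by positivity) (by positivity)]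
      have h10 : (Real.log y / 2) ^ 3 ≤ Real.log Z ^ 3 := pow_le_pow_left₀ (by positivity) hlogZ 3
      have h11 : Real.log y ^ 3 ≤ 8 * Real.log Z ^ 3 := by
        have : (Real.log y / 2) ^ 3 = Real.log y ^ 3 / 8 := by ring
        linarith
      have := mul_le_mul_of_nonneg_left h11 hZ0.le
      linarith
    have h10 : (S1.card : ℝ) ≤ 2 * (8 * (Z / Real.log y ^ 3)) * (17 * Real.log y) := by
      refine h8.trans ?_
      apply mul_le_mul (hB.trans _) hJ2 (Nat.cast_nonneg _) (by positivity)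
      linarith
    refine h10.trans ?_
    have h11 : 2 * (8 * (Z / Real.log y ^ 3)) * (17 * Real.log y) = 272 * Z / Real.log y ^ 2 := by
      field_simp
      ring
    rw [h11, div_le_div_iff₀ (by positivity) (by positivity), hZ]
    have h12 : (8 : ℝ) ^ m = 2 ^ m * 4 ^ m := by rw [← mul_pow]; norm_num
    have h13 : 272 * 2 ^ m ≤ Real.log y ^ 2 := by nlinarith
    calc 272 * (y / 4 ^ m) * 8 ^ m = y * (272 * 2 ^ m) := by rw [h12]; field_simp
      _ ≤ y * Real.log y ^ 2 := mul_le_mul_of_nonneg_left h13 hy0.le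
  -- the typical starting points
  obtain ⟨J', hJ'⟩ : ∃ J' : ℕ, J' = ⌊Real.log y / 14⌋₊ := ⟨_, rfl⟩
  have hJ'1 : (J' : ℝ) ≤ Real.log y / 14 := by rw [hJ']; exact Nat.floor_le (by positivity)
  have h2J : (2 : ℝ) ^ J' ≤ y ^ (1 / 20 : ℝ) := by
    rw [← Real.rpow_natCast, Real.rpow_def_of_pos (by norm_num), Real.rpow_def_of_pos hy0]
    apply Real.exp_le_exp.2
    have h7 := Real.log_two_lt_d9
    have h8 : (0 : ℝ) ≤ J' := Nat.cast_nonneg _
    nlinarith
  have hy20 : y ^ (1 / 20 : ℝ) ≤ Z := by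
    rw [hZ, le_div_iff₀ h4m]
    calc y ^ (1 / 20 : ℝ) * 4 ^ m ≤ y ^ (1 / 20 : ℝ) * y ^ (19 / 20 : ℝ) := mul_le_mul_of_nonneg_left h4 (by positivity)
      _ = y := by rw [← Real.rpow_add hy0]; norm_num
  set Bj : ℕ → Finset ℕ := fun j => (Icc 1 ⌊Z⌋₊).filter fun b => 2 ^ j * y ≤ 2 * (3 ^ od j b * b) with hBj
  have c2 : (S2.card : ℝ) ≤ 4 / (1 - rh) * (y / 8 ^ m) := by
    have hsub : S2 ⊆ (range (J' + 1)).biUnion fun j => (Bj j).image (T^[j]) := by
      intro c hc
      rw [hS2, mem_filter] at hc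
      obtain ⟨hcS, m0, ht1, ht2⟩ := hc
      obtain ⟨hb0, hbZ, hT⟩ := hbj c hcS
      obtain ⟨⟨hc1, hc2⟩, hG, _⟩ := hS c hcS
      set b1 := b c with hb1
      set j1 := j c with hj1
      have hc0 : 0 < c := by
        have : (0 : ℝ) < c := by linarith
        exact_mod_cast this
      have hsqc : Real.sqrt y ≤ Real.sqrt c := Real.sqrt_le_sqrt hc1.le
      have hjm : j1 ≤ m0 := by
        by_contra hcon
        push Not at hcon
        apply hG.2 (T^[m0] b1) (iter_pos hb0 m0) (by linarith) (j1 - m0)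
        rw [← Function.iterate_add_apply, show j1 - m0 + m0 = j1 by omega, hT]
      have hprof := ht2 j1 hjm
      rw [hT] at hprof
      have hb0R : (0 : ℝ) < b1 := by exact_mod_cast hb0
      have hlb : Real.log b1 ≤ Real.log y := Real.log_le_log hb0R (hbZ.trans hZy)
      have hlc : Real.log y ≤ Real.log c := Real.log_le_log hy0 hc1.le
      have hmu : 0.142 ≤ mu := by
        have h5 := mu_lower
        have h6 := Real.log_two_gt_d9
        linarith
      have hj1R : (j1 : ℝ) ≤ Real.log y / 14 := by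
        have h7 := (abs_le.1 hprof).2
        have h8 : (0 : ℝ) ≤ j1 := Nat.cast_nonneg _
        nlinarith
      have hj1J : j1 ≤ J' := by rw [hJ']; exact Nat.le_floor hj1R
      have hbsq : Real.sqrt y < b1 := by
        by_contra hcon
        push Not at hcon
        exact hG.2 b1 hb0 (hcon.trans hsqc) j1 hT
      rw [mem_biUnion]
      refine ⟨j1, mem_range.2 (by omega), ?_⟩
      rw [mem_image]
      refine ⟨b1, ?_, hT⟩
      simp only [hBj]
      rw [mem_filter, mem_Icc]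
      refine ⟨⟨hb0, Nat.le_floor hbZ⟩, ?_⟩
      have hlow : ∀ i < j1, Real.log y ≤ ((T^[i] b1 : ℕ) : ℝ) := by
        intro i hi
        have h7 := growth_low i b1
        have h8 : (1 : ℝ) ≤ 3 ^ od i b1 := one_le_pow₀ (by norm_num)
        have h9 : (b1 : ℝ) ≤ 3 ^ od i b1 * b1 := le_mul_of_one_le_left hb0R.le h8
        have h10 : (2 : ℝ) ^ i ≤ y ^ (1 / 20 : ℝ) :=
          (pow_le_pow_right₀ (by norm_num) (by omega)).trans h2J
        have h11 : Real.sqrt y ≤ y ^ (1 / 20 : ℝ) * (T^[i] b1 : ℕ) := by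
          have : (2 : ℝ) ^ i * (T^[i] b1 : ℕ) ≤ y ^ (1 / 20 : ℝ) * (T^[i] b1 : ℕ) :=
            mul_le_mul_of_nonneg_right h10 (Nat.cast_nonneg _)
          linarith
        rw [Real.sqrt_eq_rpow] at h11
        by_contra hcon
        push Not at hcon
        have h12 : y ^ (1 / 20 : ℝ) * (T^[i] b1 : ℕ) < y ^ (1 / 20 : ℝ) * y ^ (1 / 20 : ℝ) := by
          apply mul_lt_mul_of_pos_left (lt_of_lt_of_le hcon h2) (by positivity)
        rw [← Real.rpow_add hy0] at h12
        have h13 : y ^ (1 / 20 + 1 / 20 : ℝ) ≤ y ^ (1 / 2 : ℝ) :=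
          Real.rpow_le_rpow_of_exponent_le (by linarith) (by norm_num)
        linarith
      have hgr := growth hlog0 j1 b1 hlow
      rw [hT] at hgr
      have hexp : (1 + 1 / Real.log y) ^ j1 ≤ 2 := by
        calc (1 + 1 / Real.log y) ^ j1 ≤ (Real.exp (1 / Real.log y)) ^ j1 := by
              apply pow_le_pow_left₀ (by positivity)
              have := Real.add_one_le_exp (1 / Real.log y)
              linarith
          _ = Real.exp (j1 * (1 / Real.log y)) := by rw [← Real.exp_nat_mul]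
          _ ≤ Real.exp (Real.log 2) := by
              apply Real.exp_le_exp.2
              have h7 := Real.log_two_gt_d9
              rw [mul_one_div, div_le_iff₀ hlog0]
              nlinarith
          _ = 2 := Real.exp_log (by norm_num)
      have h7 : (2 : ℝ) ^ j1 * y ≤ 2 ^ j1 * c := mul_le_mul_of_nonneg_left hc1.le (by positivity)
      have h8 : (3 : ℝ) ^ od j1 b1 * b1 * (1 + 1 / Real.log y) ^ j1 ≤ 3 ^ od j1 b1 * b1 * 2 :=
        mul_le_mul_of_nonneg_left hexp (by positivity)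
      linarith
    have hBcard : ∀ j ∈ range (J' + 1), ((Bj j).card : ℝ) ≤ Real.sqrt (2 * Z / y) * (2 * Z) * rh ^ j := by
      intro j hj
      rw [mem_range] at hj
      apply climb hy0
      · calc (2 : ℝ) ^ j ≤ 2 ^ J' := pow_le_pow_right₀ (by norm_num) (by omega)
          _ ≤ y ^ (1 / 20 : ℝ) := h2J
          _ ≤ Z := hy20
      · intro b hb
        simp only [hBj] at hb
        rw [mem_filter, mem_Icc] at hb
        refine ⟨?_, hb.2⟩
        calc (b : ℝ) ≤ (⌊Z⌋₊ : ℕ) := by exact_mod_cast hb.1.2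
          _ ≤ Z := Nat.floor_le hZ0.le
    have h7 : (S2.card : ℝ) ≤ ∑ j ∈ range (J' + 1), ((Bj j).card : ℝ) := by
      have : S2.card ≤ ∑ j ∈ range (J' + 1), (Bj j).card := by
        calc S2.card ≤ _ := card_le_card hsub
          _ ≤ ∑ j ∈ range (J' + 1), ((Bj j).image (T^[j])).card := card_biUnion_le
          _ ≤ _ := sum_le_sum fun j _ => card_image_le
      exact_mod_cast this
    have h8 : ∑ j ∈ range (J' + 1), rh ^ j ≤ 1 / (1 - rh) := by
      rw [one_div]
      calc ∑ j ∈ range (J' + 1), rh ^ j ≤ ∑' j : ℕ, rh ^ j :=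
            (summable_geometric_of_lt_one hrh0.le hrh).sum_le_tsum _ (fun j _ => by positivity)
        _ = (1 - rh)⁻¹ := tsum_geometric_of_lt_one hrh0.le hrh
    have h9 : Real.sqrt (2 * Z / y) * (2 * Z) ≤ 4 * (y / 8 ^ m) := by
      have h10 : 2 * Z / y = 2 / 4 ^ m := by rw [hZ]; field_simp
      have h11 : Real.sqrt (2 / 4 ^ m) ≤ 2 / 2 ^ m := by
        rw [Real.sqrt_le_left (by positivity), div_pow, ← pow_mul, mul_comm m 2, pow_mul]
        apply div_le_div_of_nonneg_right _ (by positivity) |>.trans_eq _ |>.trans le_rfl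
        · exact 4
        · norm_num
        · norm_num
      rw [h10]
      calc Real.sqrt (2 / 4 ^ m) * (2 * Z) ≤ 2 / 2 ^ m * (2 * Z) := mul_le_mul_of_nonneg_right h11 (by positivity)
        _ = 4 * (y / 8 ^ m) := by
            have h12 : (8 : ℝ) ^ m = 2 ^ m * 4 ^ m := by rw [← mul_pow]; norm_num
            rw [hZ, h12]; field_simp; ring
    calc (S2.card : ℝ) ≤ ∑ j ∈ range (J' + 1), ((Bj j).card : ℝ) := h7
      _ ≤ ∑ j ∈ range (J' + 1), Real.sqrt (2 * Z / y) * (2 * Z) * rh ^ j := sum_le_sum hBcard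
      _ = Real.sqrt (2 * Z / y) * (2 * Z) * ∑ j ∈ range (J' + 1), rh ^ j := by rw [mul_sum]
      _ ≤ 4 * (y / 8 ^ m) * (1 / (1 - rh)) := by
          apply mul_le_mul h9 h8 (sum_nonneg fun j _ => by positivity) (by positivity)
      _ = _ := by ring
  have : (S.card : ℝ) = S1.card + S2.card := by exact_mod_cast hcard.symm
  rw [this]
  linarith

end Pool.Agent.V11311.FP
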