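import Pool.Agent.V11311.FP.A

/-! The law of the first passage, part C: logarithmic sums of periodic functions. -/

set_option autoImplicit false

namespace Pool.Agent.V11311.FP

open Finset Filter Topology Pool.Agent.V11311.PD Pool.Agent.V11311.PL

open Pool.Agent.Helper894.Collatz (T od period)

/-- the logarithmic sum -/
noncomputable def Hf (f : ℕ → ℝ) (N : ℕ) : ℝ := ∑ c ∈ Ioc 0 N, f c / c

theorem Hf_range (f : ℕ → ℝ) (N : ℕ) : Hf f N = ∑ i ∈ range N, f (i + 1) / ((i + 1 : ℕ) : ℝ) := by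
  unfold Hf
  induction N with
  | zero => simp
  | succ N ih => rw [sum_Ioc_succ_top (Nat.zero_le _), sum_range_succ, ih]

theorem Icc_sum_range (f : ℕ → ℝ) (N : ℕ) : ∑ i ∈ Icc 1 N, f i = ∑ i ∈ range N, f (i + 1) := by
  induction N with
  | zero => simp
  | succ N ih => rw [sum_Icc_succ_top (by omega), sum_range_succ, ih]

theorem per_bdd {F : ℕ → ℝ} {q : ℕ} (hq : 0 < q) (hF : ∀ n, F (n + q) = F n) :
    ∃ M : ℝ, ∀ N : ℕ, |∑ i ∈ Icc 1 N, F i - N * ((∑ c ∈ range q, F c) / q)| ≤ M := by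
  set S := ∑ c ∈ range q, F c with hS
  have hqR : (0 : ℝ) < q := by exact_mod_cast hq
  set R : ℕ → ℝ := fun N => ∑ i ∈ Icc 1 N, F i - N * (S / q) with hR
  have hper : Function.Periodic R q := by
    intro N
    simp only [hR]
    rw [psum_step hq hF]
    push_cast
    field_simp
    ring
  refine ⟨∑ c ∈ range q, |R c|, ?_⟩
  intro N
  have h1 : R (N % q) = R N := hper.map_mod_nat N
  show |R N| ≤ _
  rw [← h1]
  exact single_le_sum (f := fun c => |R c|) (fun c _ => abs_nonneg _) (mem_range.2 (Nat.mod_lt N hq))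

theorem Hf_conv {f : ℕ → ℝ} {q : ℕ} (hq : 0 < q) (hf : ∀ n, f (n + q) = f n) :
    ∃ L : ℝ, Tendsto (fun N : ℕ => Hf f N - (∑ c ∈ range q, f c) / q * Real.log N) atTop (𝓝 L) := by
  set μ := (∑ c ∈ range q, f c) / q with hμ
  obtain ⟨M, hM⟩ := per_bdd hq hf
  have h1 : ∀ n : ℕ, ‖∑ i ∈ range n, (f (i + 1) - μ)‖ ≤ M := by
    intro n
    rw [sum_sub_distrib, ← Icc_sum_range, sum_const, card_range, nsmul_eq_mul, Real.norm_eq_abs]
    exact hM n
  have ha : Antitone fun n : ℕ => (1 : ℝ) / ((n : ℝ) + 1) := by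
    intro a b hab
    simp only
    apply one_div_le_one_div_of_le (by positivity)
    have : (a : ℝ) ≤ b := by exact_mod_cast hab
    linarith
  have h2 := ha.cauchySeq_series_mul_of_tendsto_zero_of_bounded tendsto_one_div_add_atTop_nhds_zero_nat h1
  obtain ⟨L1, hL1⟩ := cauchySeq_tendsto_of_complete h2
  have h3 := Real.tendsto_harmonic_sub_log.const_mul μ
  refine ⟨L1 + μ * Real.eulerMascheroniConstant, ?_⟩
  refine (hL1.add h3).congr fun N => ?_
  rw [Hf_range]
  have h4 : ((harmonic N : ℚ) : ℝ) = ∑ i ∈ range N, 1 / (((i : ℝ) + 1)) := by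
    unfold harmonic
    push_cast
    apply sum_congr rfl
    intro i _
    rw [one_div]
  rw [h4, mul_sub, mul_sum, ← add_sub_assoc, ← sum_add_distrib]
  congr 1
  apply sum_congr rfl
  intro i _
  rw [smul_eq_mul]
  push_cast
  ring

theorem log_floor {a : ℝ} (ha : 0 < a) : Tendsto (fun Y : ℝ => Real.log ⌊a * Y⌋₊ - Real.log Y) atTop (𝓝 (Real.log a)) := by
  have h1 : Tendsto (fun Y : ℝ => (⌊a * Y⌋₊ : ℝ) / Y) atTop (𝓝 a) := tendsto_nat_floor_mul_div_atTop ha.le
  have h2 := (Real.continuousAt_log ha.ne').tendsto.comp h1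
  refine h2.congr' ?_
  filter_upwards [eventually_gt_atTop (1 / a), eventually_gt_atTop 0] with Y hY hY0
  simp only [Function.comp]
  rw [Real.log_div _ hY0.ne']
  have : 1 < a * Y := by
    rw [div_lt_iff₀ ha] at hY; linarith
  have h3 : 0 < ⌊a * Y⌋₊ := Nat.floor_pos.2 this.le
  exact_mod_cast h3.ne'

theorem floor_top {a : ℝ} (ha : 0 < a) : Tendsto (fun Y : ℝ => ⌊a * Y⌋₊) atTop atTop :=
  tendsto_nat_floor_atTop.comp (tendsto_id.const_mul_atTop ha)

/-- logarithmic sums of periodic functions -/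
theorem riem {f : ℕ → ℝ} {q : ℕ} (hq : 0 < q) (hf : ∀ n, f (n + q) = f n) {a b : ℝ} (ha : 0 < a) (hab : a ≤ b) :
    Tendsto (fun Y : ℝ => ∑ c ∈ Ioc ⌊a * Y⌋₊ ⌊b * Y⌋₊, f c / c) atTop
      (𝓝 ((∑ c ∈ range q, f c) / q * Real.log (b / a))) := by
  have hb : 0 < b := by linarith
  set μ := (∑ c ∈ range q, f c) / q with hμ
  obtain ⟨L, hL⟩ := Hf_conv hq hf
  have h1 := hL.comp (floor_top hb)
  have h2 := hL.comp (floor_top ha)
  have h3 := (log_floor hb).sub (log_floor ha)
  rw [← Real.log_div hb.ne' ha.ne'] at h3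
  have h4 := (h1.sub h2).add (h3.const_mul μ)
  rw [sub_self, zero_add] at h4
  refine h4.congr' ?_
  filter_upwards [eventually_ge_atTop 0] with Y hY
  simp only [Function.comp]
  have h5 : ⌊a * Y⌋₊ ≤ ⌊b * Y⌋₊ := Nat.floor_mono (mul_le_mul_of_nonneg_right hab hY)
  have h6 := sum_Ioc_consecutive (fun c : ℕ => f c / c) (Nat.zero_le ⌊a * Y⌋₊) h5
  unfold Hf
  rw [← h6]
  ring

/-! ### the mean over a class -/

theorem sum_class (K x : ℕ) (hx : x < 2 ^ K) (F : ℕ → ℝ) (N : ℕ) :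
    ∑ c ∈ range (2 ^ K * N), (if c % 2 ^ K = x then F c else 0) = ∑ t ∈ range N, F (x + 2 ^ K * t) := by
  induction N with
  | zero => simp
  | succ N ih =>
    rw [mul_add, mul_one, sum_range_add, ih, sum_range_succ]
    congr 1
    rw [sum_eq_single_of_mem x (mem_range.2 hx)]
    · rw [if_pos]
      · rw [add_comm]
      · rw [Nat.mul_add_mod, Nat.mod_eq_of_lt hx]
    · intro b hb hne
      rw [mem_range] at hb
      rw [if_neg]
      rw [Nat.mul_add_mod, Nat.mod_eq_of_lt hb]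
      exact hne

theorem sum_crt {M Q : ℕ} (hM : 0 < M) (hQ : 0 < Q) (hMQ : Nat.Coprime M Q) {u v : ℕ → ℝ}
    (hu : ∀ n, u (n + M) = u n) (hv : ∀ n, v (n + Q) = v n) :
    ∑ t ∈ range (M * Q), u t * v t = (∑ s ∈ range M, u s) * ∑ s ∈ range Q, v s := by
  have hpu : Function.Periodic u M := hu
  have hpv : Function.Periodic v Q := hv
  set φ : ℕ → ℕ × ℕ := fun t => (t % M, t % Q) with hφ
  have hinj : Set.InjOn φ (range (M * Q) : Set ℕ) := by
    intro s hs t ht hst
    rw [mem_coe, mem_range] at hs ht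
    simp only [hφ, Prod.mk.injEq] at hst
    have h1 : s ≡ t [MOD M * Q] := (Nat.modEq_and_modEq_iff_modEq_mul hMQ).1 ⟨hst.1, hst.2⟩
    have h2 : s % (M * Q) = t % (M * Q) := h1
    rwa [Nat.mod_eq_of_lt hs, Nat.mod_eq_of_lt ht] at h2
  have himg : (range (M * Q)).image φ = range M ×ˢ range Q := by
    apply eq_of_subset_of_card_le
    · intro p hp
      rw [mem_image] at hp
      obtain ⟨t, _, rfl⟩ := hp
      rw [mem_product, mem_range, mem_range]
      exact ⟨Nat.mod_lt _ hM, Nat.mod_lt _ hQ⟩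
    · rw [card_image_of_injOn hinj, card_product, card_range, card_range, card_range]
  have h1 : ∀ t ∈ range (M * Q), u t * v t = (fun p : ℕ × ℕ => u p.1 * v p.2) (φ t) := by
    intro t _
    simp only [hφ]
    rw [hpu.map_mod_nat, hpv.map_mod_nat]
  rw [sum_congr rfl h1, ← sum_image (f := fun p : ℕ × ℕ => u p.1 * v p.2) hinj, himg, sum_product, sum_mul_sum]

/-- the weights of the integers of a class with given image after `K` steps -/
noncomputable def fx (m K M r x c : ℕ) : ℝ := if c % 2 ^ K = x then (if T^[K] c % M = r then gk m c else 0) else 0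

theorem fx_nonneg (m K M r x c : ℕ) : 0 ≤ fx m K M r x c := by
  unfold fx
  split_ifs
  · exact gk_nonneg m c
  · exact le_rfl
  · exact le_rfl

theorem fx_per (m K M r x c : ℕ) : fx m K M r x (c + 2 ^ K * (M * 3 ^ m)) = fx m K M r x c := by
  unfold fx
  have hg : Function.Periodic (gk m) (3 ^ m) := gk_per m
  have h1 : gk m (c + 2 ^ K * (M * 3 ^ m)) = gk m c := by
    rw [show 2 ^ K * (M * 3 ^ m) = (2 ^ K * M) * 3 ^ m by ring]
    exact hg.nat_mul (2 ^ K * M) c
  have h2 : T^[K] (c + 2 ^ K * (M * 3 ^ m)) % M = T^[K] c % M := by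
    rw [(period K c _).1, show 3 ^ od K c * (M * 3 ^ m) = M * (3 ^ od K c * 3 ^ m) by ring, Nat.add_mul_mod_self_left]
  rw [h1, h2, Nat.add_mul_mod_self_left]

/-- indicator function of a class -/
noncomputable def iv (M r n : ℕ) : ℝ := if n % M = r then 1 else 0

theorem iv_per (M r n : ℕ) : iv M r (n + M) = iv M r n := by
  unfold iv
  rw [Nat.add_mod_right]

theorem iv_sum {M r : ℕ} (hr : r < M) : ∑ c ∈ range M, iv M r c = 1 := by
  rw [sum_eq_single_of_mem r (mem_range.2 hr)]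
  · unfold iv
    rw [Nat.mod_eq_of_lt hr, if_pos rfl]
  · intro b hb hne
    rw [mem_range] at hb
    unfold iv
    rw [Nat.mod_eq_of_lt hb, if_neg hne]

theorem fx_sum (m K : ℕ) {M r x : ℕ} (hx : x < 2 ^ K) (hr : r < M) (hM : Nat.Coprime M 3) :
    ∑ c ∈ range (2 ^ K * (M * 3 ^ m)), fx m K M r x c = 2 / Real.log (4 / 3) * 3 ^ m := by
  have hM0 : 0 < M := by omega
  unfold fx
  rw [sum_class K x hx]
  have h1 : ∀ t ∈ range (M * 3 ^ m), (if T^[K] (x + 2 ^ K * t) % M = r then gk m (x + 2 ^ K * t) else 0)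
      = iv M r (3 ^ od K x * t + T^[K] x) * gk m (2 ^ K * t + x) := by
    intro t _
    rw [(period K x t).1, add_comm (T^[K] x), add_comm x]
    unfold iv
    split_ifs <;> simp
  have hg : Function.Periodic (gk m) (3 ^ m) := gk_per m
  have hi : Function.Periodic (iv M r) M := iv_per M r
  rw [sum_congr rfl h1, sum_crt hM0 (by positivity) (hM.pow_right m) (u := fun t => iv M r (3 ^ od K x * t + T^[K] x))
    (v := fun t => gk m (2 ^ K * t + x))]
  · rw [sum_affine hM0 (iv_per M r) (hM.symm.pow_left _), sum_affine (by positivity) (gk_per m), gk_sum,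
      iv_sum hr, one_mul]
    exact (Nat.Coprime.pow _ _ (by norm_num))
  · intro n
    rw [show 3 ^ od K x * (n + M) + T^[K] x = (3 ^ od K x * n + T^[K] x) + 3 ^ od K x * M by ring]
    exact hi.nat_mul _ _
  · intro n
    rw [show 2 ^ K * (n + 3 ^ m) + x = (2 ^ K * n + x) + 2 ^ K * 3 ^ m by ring]
    exact hg.nat_mul (2 ^ K) _

theorem fx_mean (m K : ℕ) {M r x : ℕ} (hx : x < 2 ^ K) (hr : r < M) (hM : Nat.Coprime M 3) :
    (∑ c ∈ range (2 ^ K * (M * 3 ^ m)), fx m K M r x c) / ((2 ^ K * (M * 3 ^ m) : ℕ) : ℝ)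
      = 2 / Real.log (4 / 3) / (2 ^ K * M) := by
  rw [fx_sum m K hx hr hM]
  have hM0 : (0 : ℝ) < M := by
    have : 0 < M := by omega
    exact_mod_cast this
  push_cast
  field_simp

end Pool.Agent.V11311.FP
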