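import Pool.Agent.V11311.FP.B

/-! The law of the first passage, part D: sums over parity words, reversal, the limit functional. -/

set_option autoImplicit false

namespace Pool.Agent.V11311.FP

open Finset Filter Topology MeasureTheory

open Pool.Agent.Helper894.Collatz (T od period flip_parity od_shift sum_pow_od)

open Pool.Agent.H377R2 (sum_pow_od_block)

open Pool.Agent.V11311.PD (od_succ' od_zero')

/-! ### words -/

/-- sum over all words of length `K` -/
noncomputable def Wsum : ℕ → (List ℕ → ℝ) → ℝ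
  | 0, Φ => Φ []
  | K + 1, Φ => Wsum K fun w => Φ (w ++ [0]) + Φ (w ++ [1])

/-- the word of the parities -/
def pw : ℕ → ℕ → List ℕ
  | 0, _ => []
  | K + 1, x => pw K x ++ [T^[K] x % 2]

theorem pw_cons (K x : ℕ) : pw (K + 1) x = (x % 2) :: pw K (T x) := by
  induction K with
  | zero => simp [pw]
  | succ K ih =>
    rw [pw, ih, List.cons_append, pw, Function.iterate_succ_apply]

theorem T_par (j k x c : ℕ) (h : j < k) : T^[j] (x + 2 ^ k * c) % 2 = T^[j] x % 2 := by
  obtain ⟨d, rfl⟩ := Nat.exists_eq_add_of_lt h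
  rw [show x + 2 ^ (j + d + 1) * c = x + 2 ^ j * (2 * (2 ^ d * c)) by ring, (period j x _).1,
    show 3 ^ od j x * (2 * (2 ^ d * c)) = 2 * (3 ^ od j x * (2 ^ d * c)) by ring, Nat.add_mul_mod_self_left]

theorem pw_per (k x c : ℕ) : ∀ j ≤ k, pw j (x + 2 ^ k * c) = pw j x := by
  intro j
  induction j with
  | zero => intro _; rfl
  | succ j ih =>
    intro hj
    rw [pw, pw, ih (by omega), T_par j k x c (by omega)]

theorem od_per (k x c : ℕ) : ∀ j ≤ k, od j (x + 2 ^ k * c) = od j x := by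
  intro j hj
  obtain ⟨d, rfl⟩ := Nat.exists_eq_add_of_le hj
  rw [show x + 2 ^ (j + d) * c = x + 2 ^ j * (2 ^ d * c) by ring]
  exact (period j x _).2.1

theorem sum_range_double (K : ℕ) (F : ℕ → ℝ) :
    ∑ x ∈ range (2 ^ (K + 1)), F x = ∑ x ∈ range (2 ^ K), (F x + F (x + 2 ^ K)) := by
  rw [pow_succ, mul_two, sum_range_add, ← sum_add_distrib]
  apply sum_congr rfl
  intro x _
  rw [add_comm (2 ^ K) x]

theorem sum_split (K : ℕ) (Φ : List ℕ → ℝ) : ∑ x ∈ range (2 ^ (K + 1)), Φ (pw (K + 1) x)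
    = ∑ x ∈ range (2 ^ K), (Φ (pw K x ++ [0]) + Φ (pw K x ++ [1])) := by
  rw [sum_range_double]
  apply sum_congr rfl
  intro x _
  have h1 : pw K (x + 2 ^ K) = pw K x := by
    have := pw_per K x 1 K le_rfl
    rwa [mul_one] at this
  rw [pw, pw, h1, flip_parity]
  rcases Nat.mod_two_eq_zero_or_one (T^[K] x) with h | h
  · rw [h]
  · rw [h, add_comm]

theorem W1 (K : ℕ) : ∀ Φ : List ℕ → ℝ, ∑ x ∈ range (2 ^ K), Φ (pw K x) = Wsum K Φ := by
  induction K with
  | zero => intro Φ; simp [pw, Wsum]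
  | succ K ih =>
    intro Φ
    rw [sum_split, Wsum, ← ih]

theorem W2 (K : ℕ) : ∀ Φ : List ℕ → ℝ, Wsum (K + 1) Φ = Wsum K fun w => Φ (0 :: w) + Φ (1 :: w) := by
  induction K with
  | zero => intro Φ; simp [Wsum]
  | succ K ih =>
    intro Φ
    rw [Wsum, ih, Wsum]
    congr 1
    funext w
    simp only [List.cons_append]
    ring

theorem W3 (K : ℕ) : ∀ Φ : List ℕ → ℝ, Wsum K (fun w => Φ w.reverse) = Wsum K Φ := by
  induction K with
  | zero => intro Φ; simp [Wsum]
  | succ K ih =>
    intro Φ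
    rw [W2 K Φ, Wsum]
    simp only [List.reverse_append, List.reverse_cons, List.reverse_nil, List.nil_append, List.singleton_append]
    exact ih fun w => Φ (0 :: w) + Φ (1 :: w)

/-- reversal of the parity words -/
theorem reversal (K : ℕ) (Φ : List ℕ → ℝ) :
    ∑ x ∈ range (2 ^ K), Φ (pw K x).reverse = ∑ x ∈ range (2 ^ K), Φ (pw K x) := by
  rw [W1 K Φ, ← W3, ← W1 K]

/-! ### the walk -/

/-- the step -/
noncomputable def lb (b : ℕ) : ℝ := Real.log 2 - b * Real.log 3

/-- the walk: `log (2 ^ k / 3 ^ od k x)` -/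
noncomputable def Sx (k x : ℕ) : ℝ := k * Real.log 2 - od k x * Real.log 3

theorem Sx_zero (x : ℕ) : Sx 0 x = 0 := by simp [Sx, od_zero']

theorem Sx_succ (k x : ℕ) : Sx (k + 1) x = Sx k x + lb (T^[k] x % 2) := by
  unfold Sx lb
  rw [Pool.Agent.Helper894.Collatz.od_succ]
  push_cast
  ring

theorem Sx_succ' (k x : ℕ) : Sx (k + 1) x = lb (x % 2) + Sx k (T x) := by
  unfold Sx lb
  rw [od_succ']
  push_cast
  ring

theorem Sx_exp (k x : ℕ) : Real.exp (Sx k x) = 2 ^ k / 3 ^ od k x := by
  unfold Sx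
  rw [Real.exp_sub, Real.exp_nat_mul, Real.exp_nat_mul, Real.exp_log (by norm_num), Real.exp_log (by norm_num)]

theorem Sx_per (k x c j : ℕ) (h : j ≤ k) : Sx j (x + 2 ^ k * c) = Sx j x := by
  unfold Sx
  rw [od_per k x c j h]

/-- the maximum of the walk before time `k` -/
noncomputable def Mx : ℕ → ℕ → ℝ
  | 0, _ => 0
  | k + 1, x => max (Mx k x) (Sx k x)

theorem Mx_nonneg (k x : ℕ) : 0 ≤ Mx k x := by
  induction k with
  | zero => exact le_rfl
  | succ k ih => exact ih.trans (le_max_left _ _)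

theorem Sx_le_Mx {j k : ℕ} (h : j < k) (x : ℕ) : Sx j x ≤ Mx k x := by
  induction k with
  | zero => omega
  | succ k ih =>
    rcases Nat.lt_succ_iff_lt_or_eq.1 h with h1 | rfl
    · exact (ih h1).trans (le_max_left _ _)
    · exact le_max_right _ _

theorem Mx_per (k x c : ℕ) : ∀ j ≤ k + 1, Mx j (x + 2 ^ k * c) = Mx j x := by
  intro j
  induction j with
  | zero => intro _; rfl
  | succ j ih =>
    intro hj
    rw [Mx, Mx, ih (by omega), Sx_per k x c j (by omega)]

/-- minimum of the prefix sums of a word -/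
noncomputable def mn : List ℕ → ℝ
  | [] => 0
  | b :: w => min 0 (lb b + mn w)

theorem mn_nonpos (w : List ℕ) : mn w ≤ 0 := by
  cases w with
  | nil => exact le_rfl
  | cons b w => exact min_le_left _ _

theorem Zx (K x : ℕ) : Sx K x - Mx (K + 1) x = mn (pw K x).reverse := by
  induction K with
  | zero => simp [Mx, Sx_zero, pw, mn]
  | succ K ih =>
    rw [pw, List.reverse_append, List.reverse_singleton, List.singleton_append, mn, ← ih, Mx, Sx_succ]
    rcases le_total (Mx (K + 1) x) (Sx K x + lb (T^[K] x % 2)) with h | h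
    · rw [max_eq_right h, min_eq_left (by linarith)]
      ring
    · rw [max_eq_left h, min_eq_right (by linarith)]
      ring

theorem lt_mn (K : ℕ) : ∀ (x : ℕ) (s : ℝ), s < mn (pw K x) ↔ ∀ j ≤ K, s < Sx j x := by
  induction K with
  | zero =>
    intro x s
    simp [pw, mn, Sx_zero]
  | succ K ih =>
    intro x s
    rw [pw_cons, mn, lt_min_iff]
    have h1 : s < lb (x % 2) + mn (pw K (T x)) ↔ s - lb (x % 2) < mn (pw K (T x)) := by
      constructor <;> intro h <;> linarith
    rw [h1, ih]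
    constructor
    · rintro ⟨h2, h3⟩ j hj
      cases j with
      | zero => rw [Sx_zero]; exact h2
      | succ j =>
        rw [Sx_succ']
        have := h3 j (by omega)
        linarith
    · intro h
      refine ⟨by simpa [Sx_zero] using h 0 (by omega), ?_⟩
      intro j hj
      have := h (j + 1) (by omega)
      rw [Sx_succ'] at this
      linarith

theorem mn_anti (K x : ℕ) : mn (pw (K + 1) x) ≤ mn (pw K x) := by
  apply le_of_forall_lt
  intro s hs
  rw [lt_mn] at hs ⊢
  intro j hj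
  exact hs j (by omega)

/-! ### the functionals -/

/-- the main functional -/
noncomputable def TK (K : ℕ) (u : ℝ) : ℝ :=
  (∑ x ∈ range (2 ^ K), Real.posLog (u * Real.exp (Sx K x - Mx K x))) / 2 ^ K

theorem posLog_mul_exp {u : ℝ} (hu : 0 < u) (s : ℝ) : Real.posLog (u * Real.exp s) = max 0 (Real.log u + s) := by
  unfold Real.posLog
  rw [Real.log_mul hu.ne' (Real.exp_pos s).ne', Real.log_exp]

theorem TK_zero (K : ℕ) : TK K 0 = 0 := by
  unfold TK
  simp

/-- after reversal -/
noncomputable def AK (K : ℕ) (u : ℝ) : ℝ :=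
  (∑ x ∈ range (2 ^ K), max 0 (Real.log (2 * u) + mn (pw K x))) / 2 ^ K

theorem TK_succ (K : ℕ) {u : ℝ} (hu : 0 < u) (hu1 : u ≤ 1) : TK (K + 1) u = AK K u / 2 := by
  unfold TK AK
  have h0 : Real.log u ≤ 0 := Real.log_nonpos hu.le hu1
  have h1 : ∀ x, Real.posLog (u * Real.exp (Sx (K + 1) x - Mx (K + 1) x))
      = max 0 (Real.log u + lb (T^[K] x % 2) + mn (pw K x).reverse) := by
    intro x
    rw [posLog_mul_exp hu, ← Zx, Sx_succ]
    congr 1
    ring
  have h2 : ∀ x ∈ range (2 ^ K), Real.posLog (u * Real.exp (Sx (K + 1) x - Mx (K + 1) x))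
      + Real.posLog (u * Real.exp (Sx (K + 1) (x + 2 ^ K) - Mx (K + 1) (x + 2 ^ K)))
      = (fun w : List ℕ => max 0 (Real.log (2 * u) + mn w)) (pw K x).reverse := by
    intro x _
    rw [h1, h1]
    have h3 : pw K (x + 2 ^ K) = pw K x := by
      have := pw_per K x 1 K le_rfl
      rwa [mul_one] at this
    have hm := mn_nonpos (pw K x).reverse
    have h4 : max 0 (Real.log u + lb 1 + mn (pw K x).reverse) = 0 := by
      apply max_eq_left
      have h5 : lb 1 ≤ 0 := by
        unfold lb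
        have := Real.log_le_log (by norm_num : (0 : ℝ) < 2) (by norm_num : (2 : ℝ) ≤ 3)
        push_cast
        linarith
      linarith
    have h5 : Real.log u + lb 0 = Real.log (2 * u) := by
      rw [Real.log_mul (by norm_num) hu.ne']
      unfold lb
      push_cast
      ring
    rw [h3, flip_parity]
    rcases Nat.mod_two_eq_zero_or_one (T^[K] x) with h | h
    · rw [h, h4, h5, add_zero]
    · rw [h, h4, Nat.sub_self, h5, zero_add]
  rw [sum_range_double, sum_congr rfl h2, reversal K fun w : List ℕ => max 0 (Real.log (2 * u) + mn w), pow_succ]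
  field_simp

theorem sum_double_eq (K : ℕ) (F G : ℕ → ℝ) (h : ∀ x, F x = G x) (hG : ∀ x, G (x + 2 ^ K) = G x) :
    (∑ x ∈ range (2 ^ (K + 1)), F x) / 2 ^ (K + 1) = (∑ x ∈ range (2 ^ K), G x) / 2 ^ K := by
  rw [sum_range_double]
  have h1 : ∀ x ∈ range (2 ^ K), F x + F (x + 2 ^ K) = 2 * G x := by
    intro x _
    rw [h, h, hG]
    ring
  rw [sum_congr rfl h1, ← mul_sum, pow_succ]
  field_simp

theorem AK_anti (K : ℕ) (u : ℝ) : AK (K + 1) u ≤ AK K u := by
  have h1 : AK K u = (∑ x ∈ range (2 ^ (K + 1)), max 0 (Real.log (2 * u) + mn (pw K x))) / 2 ^ (K + 1) := by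
    rw [sum_double_eq K _ (fun x => max 0 (Real.log (2 * u) + mn (pw K x))) (fun _ => rfl)]
    · rfl
    · intro x
      have := pw_per K x 1 K le_rfl
      rw [mul_one] at this
      rw [this]
  rw [h1]
  unfold AK
  apply div_le_div_of_nonneg_right _ (by positivity)
  apply sum_le_sum
  intro x _
  apply max_le_max le_rfl
  have := mn_anti K x
  linarith

theorem AK_nonneg (K : ℕ) (u : ℝ) : 0 ≤ AK K u := by
  unfold AK
  apply div_nonneg (sum_nonneg fun x _ => le_max_left _ _) (by positivity)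

theorem TK_nonneg (K : ℕ) (u : ℝ) : 0 ≤ TK K u := by
  unfold TK
  apply div_nonneg (sum_nonneg fun x _ => Real.posLog_nonneg) (by positivity)

/-- monotonicity in the threshold, quantitatively -/
theorem TK_lip (K : ℕ) {u u' : ℝ} (hu' : 0 < u') (h : u' ≤ u) : TK K u - Real.log (u / u') ≤ TK K u' := by
  have hu : 0 < u := by linarith
  have hl : 0 ≤ Real.log (u / u') := Real.log_nonneg (by rw [le_div_iff₀ hu']; linarith)
  have h2 : (0 : ℝ) < 2 ^ K := by positivity
  have h1 : (∑ x ∈ range (2 ^ K), Real.posLog (u * Real.exp (Sx K x - Mx K x)))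
      ≤ ∑ x ∈ range (2 ^ K), (Real.posLog (u' * Real.exp (Sx K x - Mx K x)) + Real.log (u / u')) := by
    apply sum_le_sum
    intro x _
    rw [posLog_mul_exp hu, posLog_mul_exp hu']
    rw [Real.log_div hu.ne' hu'.ne'] at hl ⊢
    apply max_le
    · have := le_max_left 0 (Real.log u' + (Sx K x - Mx K x))
      linarith
    · have := le_max_right 0 (Real.log u' + (Sx K x - Mx K x))
      linarith
  rw [sum_add_distrib, sum_const, card_range, nsmul_eq_mul] at h1
  push_cast at h1
  have h3 := div_le_div_of_nonneg_right h1 h2.le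
  rw [add_div, mul_div_cancel_left₀ _ h2.ne'] at h3
  unfold TK
  linarith

/-! ### the total mass -/

theorem sum_Sx (n : ℕ) : (∑ x ∈ range (2 ^ n), Sx n x) / 2 ^ n = n * (Real.log (4 / 3) / 2) := by
  have hl : Real.log (4 / 3) = 2 * Real.log 2 - Real.log 3 := by
    rw [Real.log_div (by norm_num) (by norm_num), show (4 : ℝ) = 2 ^ 2 by norm_num, Real.log_pow]
    push_cast; ring
  rw [hl]
  induction n with
  | zero => simp [Sx_zero]
  | succ n ih =>
    rw [sum_range_double]
    have h1 : ∀ x ∈ range (2 ^ n), Sx (n + 1) x + Sx (n + 1) (x + 2 ^ n) = 2 * Sx n x + (2 * Real.log 2 - Real.log 3) := by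
      intro x _
      rw [Sx_succ, Sx_succ, flip_parity]
      have h2 := Sx_per n x 1 n le_rfl
      rw [mul_one] at h2
      rw [h2]
      unfold lb
      rcases Nat.mod_two_eq_zero_or_one (T^[n] x) with h | h
      · rw [h]; push_cast; ring
      · rw [h]; push_cast; ring
    rw [sum_congr rfl h1, sum_add_distrib, ← mul_sum, sum_const, card_range, nsmul_eq_mul, add_div, pow_succ]
    have h2 : (2 * ∑ x ∈ range (2 ^ n), Sx n x) / (2 ^ n * 2) = (∑ x ∈ range (2 ^ n), Sx n x) / 2 ^ n := by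
      field_simp
    rw [h2, ih]
    push_cast
    field_simp

/-- mean of the maximum -/
noncomputable def BK (n : ℕ) : ℝ := (∑ x ∈ range (2 ^ n), Mx (n + 1) x) / 2 ^ n

theorem BK_zero : BK 0 = 0 := by
  unfold BK
  simp [Mx, Sx_zero]

theorem BK_succ (n : ℕ) : BK (n + 1) = BK n + TK (n + 1) 1 := by
  have h1 : BK n = (∑ x ∈ range (2 ^ (n + 1)), Mx (n + 1) x) / 2 ^ (n + 1) := by
    rw [sum_double_eq n _ (fun x => Mx (n + 1) x) (fun _ => rfl)]
    · rfl
    · intro x
      have := Mx_per n x 1 (n + 1) le_rfl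
      rwa [mul_one] at this
  rw [h1]
  unfold BK TK
  rw [← add_div, ← sum_add_distrib]
  congr 1
  apply sum_congr rfl
  intro x _
  rw [posLog_mul_exp one_pos, Real.log_one, zero_add, Mx]
  rcases le_total (Mx (n + 1) x) (Sx (n + 1) x) with h | h
  · rw [max_eq_right h, max_eq_right (by linarith)]; ring
  · rw [max_eq_left h, max_eq_left (by linarith)]; ring

theorem BK_lower (n : ℕ) : n * (Real.log (4 / 3) / 2) ≤ BK n := by
  rw [← sum_Sx]
  unfold BK
  apply div_le_div_of_nonneg_right _ (by positivity)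
  apply sum_le_sum
  intro x _
  exact Sx_le_Mx (Nat.lt_succ_self n) x

theorem BK_eq (n : ℕ) : BK n = ∑ k ∈ range n, TK (k + 1) 1 := by
  induction n with
  | zero => simp [BK_zero]
  | succ n ih => rw [BK_succ, ih, sum_range_succ]

/-- the limit of the functionals -/
theorem AK_lim (u : ℝ) : ∃ L : ℝ, Tendsto (fun K => AK K u) atTop (𝓝 L) ∧ ∀ K, L ≤ AK K u := by
  have ha : Antitone fun K => AK K u := antitone_nat_of_succ_le fun K => AK_anti K u
  have hb : BddBelow (Set.range fun K => AK K u) := ⟨0, by rintro _ ⟨K, rfl⟩; exact AK_nonneg K u⟩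
  exact ⟨_, tendsto_atTop_ciInf ha hb, fun K => ciInf_le hb K⟩

/-- the total mass is at least one -/
theorem mass {L : ℝ} (h : Tendsto (fun K => AK K 1) atTop (𝓝 L)) : Real.log (4 / 3) ≤ L := by
  have h1 : Tendsto (fun K => TK (K + 1) 1) atTop (𝓝 (L / 2)) := by
    refine (h.div_const 2).congr fun K => ?_
    rw [TK_succ K one_pos le_rfl]
  have h2 := h1.cesaro
  have h3 : Real.log (4 / 3) / 2 ≤ L / 2 := by
    apply ge_of_tendsto h2
    filter_upwards [eventually_gt_atTop 0] with n hn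
    have hn0 : (0 : ℝ) < n := by exact_mod_cast hn
    have h4 := BK_lower n
    rw [BK_eq] at h4
    rw [inv_mul_eq_div, le_div_iff₀ hn0]
    linarith
  linarith

/-! ### the low part -/

theorem low_part (k m : ℕ) :
    (∑ x ∈ range (2 ^ (k + 1)), Real.posLog (4 ^ m * Real.exp (- Mx (k + 1) x))) / 2 ^ (k + 1)
      ≤ m * Real.log 4 * (2 ^ m * rh ^ k) := by
  have hl4 : 0 < Real.log 4 := Real.log_pos (by norm_num)
  have h1 : ∀ x ∈ range (2 ^ (k + 1)), Real.posLog (4 ^ m * Real.exp (- Mx (k + 1) x))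
      ≤ m * Real.log 4 * (2 ^ m / Real.sqrt 2 ^ k) * Real.sqrt 3 ^ od k x := by
    intro x _
    rw [posLog_mul_exp (by positivity), Real.log_pow]
    set P : ℝ := m * Real.log 4 with hP
    have hP0 : 0 ≤ P := by positivity
    have hM := Mx_nonneg (k + 1) x
    have hS := Sx_le_Mx (Nat.lt_succ_self k) x
    have he : Real.exp ((P - Sx k x) / 2) = 2 ^ m / Real.sqrt 2 ^ k * Real.sqrt 3 ^ od k x := by
      have e1 : Real.exp ((P - Sx k x) / 2) = Real.sqrt (Real.exp (P - Sx k x)) := by
        rw [eq_comm, Real.sqrt_eq_iff_mul_self_eq (by positivity) (by positivity), ← Real.exp_add]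
        congr 1; ring
      rw [e1, Real.exp_sub, Sx_exp, hP, Real.exp_nat_mul, Real.exp_log (by norm_num),
        Real.sqrt_eq_iff_mul_self_eq (by positivity) (by positivity)]
      have e2 : Real.sqrt 2 ^ k * Real.sqrt 2 ^ k = 2 ^ k := by rw [← mul_pow, Real.mul_self_sqrt (by norm_num)]
      have e3 : Real.sqrt 3 ^ od k x * Real.sqrt 3 ^ od k x = 3 ^ od k x := by
        rw [← mul_pow, Real.mul_self_sqrt (by norm_num)]
      have e4 : (2 : ℝ) ^ m * 2 ^ m = 4 ^ m := by rw [← mul_pow]; norm_num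
      symm
      calc (2 ^ m / Real.sqrt 2 ^ k * Real.sqrt 3 ^ od k x) * (2 ^ m / Real.sqrt 2 ^ k * Real.sqrt 3 ^ od k x)
          = (2 ^ m * 2 ^ m) * (Real.sqrt 3 ^ od k x * Real.sqrt 3 ^ od k x) / (Real.sqrt 2 ^ k * Real.sqrt 2 ^ k) := by
            ring
        _ = 4 ^ m / (2 ^ k / 3 ^ od k x) := by
            rw [e2, e3, e4]; field_simp
    rw [mul_assoc, ← he]
    apply max_le (by positivity)
    rcases le_total (Mx (k + 1) x) P with h | h
    · have h2 : 1 ≤ Real.exp ((P - Sx k x) / 2) := Real.one_le_exp (by linarith)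
      have h3 : P ≤ P * Real.exp ((P - Sx k x) / 2) := le_mul_of_one_le_right hP0 h2
      linarith
    · have : 0 ≤ P * Real.exp ((P - Sx k x) / 2) := by positivity
      linarith
  have h2 := sum_le_sum h1
  rw [← mul_sum] at h2
  have h3 : ∑ x ∈ range (2 ^ (k + 1)), Real.sqrt 3 ^ od k x = 2 * (1 + Real.sqrt 3) ^ k := by
    have := sum_pow_od_block k 2 (Real.sqrt 3)
    rw [pow_succ, this]
    push_cast; ring
  rw [h3] at h2
  rw [div_le_iff₀ (by positivity)]
  refine h2.trans (le_of_eq ?_)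
  unfold rh
  rw [div_pow, mul_pow, pow_succ]
  field_simp

end Pool.Agent.V11311.FP
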