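import Pool.Agent.V11311.FP.D

/-! The law of the first passage, part E: the limit functional as an integral. -/

set_option autoImplicit false

namespace Pool.Agent.V11311.FP

open Finset Filter Topology MeasureTheory

open Pool.Agent.Helper894.Collatz (T od)

open Pool.Agent.V11311.PD (od_zero')

open scoped Classical in
/-- proportion of the `x < 2 ^ K` with `3 ^ od j x < 2 ^ j v` for all `j ≤ K` -/
noncomputable def qK (K : ℕ) (v : ℝ) : ℝ :=
  (((range (2 ^ K)).filter fun x => ∀ j ≤ K, (3 : ℝ) ^ od j x < 2 ^ j * v).card : ℝ) / 2 ^ K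

theorem cond_iff {v : ℝ} (hv : 0 < v) (K x : ℕ) :
    (∀ j ≤ K, (3 : ℝ) ^ od j x < 2 ^ j * v) ↔ Real.exp (- mn (pw K x)) < v := by
  rw [← Real.lt_log_iff_exp_lt hv, neg_lt, lt_mn]
  apply forall_congr'
  intro j
  apply imp_congr_right
  intro _
  rw [neg_lt, Real.lt_log_iff_exp_lt hv, Real.exp_neg, Sx_exp, inv_div, div_lt_iff₀ (by positivity), mul_comm v]

/-- the integrand -/
noncomputable def gI (K : ℕ) (v : ℝ) : ℝ :=
  (∑ x ∈ range (2 ^ K), (Set.Ioi (Real.exp (- mn (pw K x)))).indicator (fun v : ℝ => 1 / v) v) / 2 ^ K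

theorem gI_eq {v : ℝ} (hv : 0 < v) (K : ℕ) : qK K v / v = gI K v := by
  classical
  unfold qK gI
  rw [card_filter, div_right_comm]
  congr 1
  push_cast
  rw [sum_div]
  apply sum_congr rfl
  intro x _
  by_cases h : Real.exp (- mn (pw K x)) < v
  · rw [Set.indicator_of_mem (by exact h)]
    have := (cond_iff hv K x).2 h
    rw [if_pos this]
  · rw [Set.indicator_of_notMem (by exact h)]
    have : ¬ ∀ j ≤ K, (3 : ℝ) ^ od j x < 2 ^ j * v := fun h' => h ((cond_iff hv K x).1 h')
    rw [if_neg this, zero_div]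

theorem int_ind {a b : ℝ} (ha : 1 ≤ a) (hb : 0 < b) :
    ∫ v in Set.Ioc 1 b, (Set.Ioi a).indicator (fun v : ℝ => 1 / v) v = max 0 (Real.log b - Real.log a) := by
  rw [setIntegral_indicator measurableSet_Ioi, Set.Ioc_inter_Ioi, max_eq_right ha]
  have ha0 : 0 < a := by linarith
  rcases le_total a b with h | h
  · rw [← intervalIntegral.integral_of_le h, integral_one_div_of_pos ha0 hb, Real.log_div hb.ne' ha0.ne', max_eq_right]
    have := Real.log_le_log ha0 h
    linarith
  · rw [Set.Ioc_eq_empty (by linarith), Measure.restrict_empty, integral_zero_measure, max_eq_left]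
    have := Real.log_le_log hb h
    linarith

theorem int_able (b : ℝ) : IntegrableOn (fun v : ℝ => 1 / v) (Set.Ioc 1 b) := by
  apply IntegrableOn.mono_set (t := Set.Icc 1 b) _ Set.Ioc_subset_Icc_self
  apply ContinuousOn.integrableOn_Icc
  apply ContinuousOn.div continuousOn_const continuousOn_id
  intro x hx
  have := hx.1
  simp only [id]
  linarith

theorem AK_int (K : ℕ) {u : ℝ} (hu : 0 < u) : AK K u = ∫ v in Set.Ioc 1 (2 * u), gI K v := by
  unfold AK gI
  rw [integral_div, integral_finsetSum]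
  · congr 1
    apply sum_congr rfl
    intro x _
    have h1 : 1 ≤ Real.exp (- mn (pw K x)) := Real.one_le_exp (by have := mn_nonpos (pw K x); linarith)
    rw [int_ind h1 (by positivity), Real.log_exp]
    congr 1
    ring
  · intro x _
    exact (int_able (2 * u)).indicator measurableSet_Ioi

theorem gI_meas (K : ℕ) : Measurable (gI K) := by
  unfold gI
  apply Measurable.div_const
  apply Finset.measurable_fun_sum
  intro x _
  exact (measurable_const.div measurable_id).indicator measurableSet_Ioi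

theorem qK_nonneg (K : ℕ) (v : ℝ) : 0 ≤ qK K v := by unfold qK; positivity

theorem qK_anti (K : ℕ) (v : ℝ) : qK (K + 1) v ≤ qK K v := by
  classical
  unfold qK
  have h1 : (((range (2 ^ (K + 1))).filter fun x => ∀ j ≤ K + 1, (3 : ℝ) ^ od j x < 2 ^ j * v).card : ℝ)
      ≤ 2 * ((range (2 ^ K)).filter fun x => ∀ j ≤ K, (3 : ℝ) ^ od j x < 2 ^ j * v).card := by
    rw [card_filter, card_filter]
    push_cast
    rw [sum_range_double, mul_sum]
    apply sum_le_sum
    intro x _
    have h2 : ∀ z : ℕ, (∀ j ≤ K, od j z = od j x) →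
        (if ∀ j ≤ K + 1, (3 : ℝ) ^ od j z < 2 ^ j * v then (1 : ℝ) else 0)
          ≤ if ∀ j ≤ K, (3 : ℝ) ^ od j x < 2 ^ j * v then (1 : ℝ) else 0 := by
      intro z hz
      by_cases h : ∀ j ≤ K + 1, (3 : ℝ) ^ od j z < 2 ^ j * v
      · have h3 : ∀ j ≤ K, (3 : ℝ) ^ od j x < 2 ^ j * v := by
          intro j hj
          rw [← hz j hj]
          exact h j (by omega)
        rw [if_pos h, if_pos h3]
      · rw [if_neg h]
        split_ifs <;> norm_num
    have a1 := h2 x (fun j _ => rfl)
    have a2 := h2 (x + 2 ^ K) (fun j hj => by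
      have := od_per K x 1 j hj
      rwa [mul_one] at this)
    linarith
  have h2 : (0 : ℝ) < 2 ^ K := by positivity
  have h3 : (2 : ℝ) ^ (K + 1) = 2 ^ K * 2 := pow_succ _ _
  rw [h3, div_le_div_iff₀ (by positivity) (by positivity)]
  have h4 := mul_le_mul_of_nonneg_right h1 h2.le
  linarith

theorem qK_le_one (K : ℕ) (v : ℝ) : qK K v ≤ 1 := by
  classical
  unfold qK
  rw [div_le_one (by positivity)]
  have := card_filter_le (range (2 ^ K)) fun x => ∀ j ≤ K, (3 : ℝ) ^ od j x < 2 ^ j * v
  rw [card_range] at this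
  exact_mod_cast this

theorem q_exists : ∃ q : ℝ → ℝ, ∀ v, Tendsto (fun K => qK K v) atTop (𝓝 (q v)) := by
  have h : ∀ v, ∃ l, Tendsto (fun K => qK K v) atTop (𝓝 l) := by
    intro v
    have ha : Antitone fun K => qK K v := antitone_nat_of_succ_le fun K => qK_anti K v
    have hb : BddBelow (Set.range fun K => qK K v) := ⟨0, by rintro _ ⟨K, rfl⟩; exact qK_nonneg K v⟩
    exact ⟨_, tendsto_atTop_ciInf ha hb⟩
  choose q hq using h
  exact ⟨q, hq⟩

theorem int_lim {q : ℝ → ℝ} (hq : ∀ v, Tendsto (fun K => qK K v) atTop (𝓝 (q v))) {u : ℝ} (hu : 0 < u) :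
    Tendsto (fun K => AK K u) atTop (𝓝 (∫ v in Set.Ioc 1 (2 * u), q v / v)) := by
  have h1 : Tendsto (fun K => ∫ v in Set.Ioc 1 (2 * u), gI K v) atTop (𝓝 (∫ v in Set.Ioc 1 (2 * u), q v / v)) := by
    apply tendsto_integral_of_dominated_convergence (fun _ => (1 : ℝ))
    · intro K
      exact (gI_meas K).aestronglyMeasurable
    · exact integrable_const 1
    · intro K
      refine (ae_restrict_iff' measurableSet_Ioc).2 (Eventually.of_forall fun v hv => ?_)
      have hv0 : 0 < v := by linarith [hv.1]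
      rw [← gI_eq hv0, Real.norm_of_nonneg (div_nonneg (qK_nonneg K v) hv0.le), div_le_one hv0]
      exact (qK_le_one K v).trans hv.1.le
    · refine (ae_restrict_iff' measurableSet_Ioc).2 (Eventually.of_forall fun v hv => ?_)
      have hv0 : 0 < v := by linarith [hv.1]
      refine ((hq v).div_const v).congr fun K => ?_
      rw [gI_eq hv0]
  refine h1.congr fun K => ?_
  rw [AK_int K hu]

end Pool.Agent.V11311.FP
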