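import Pool.Agent.V11311.FP.C
import Pool.Agent.V11311.FP.E

/-! The law of the first passage, part F: the lower bound. -/

set_option autoImplicit false

namespace Pool.Agent.V11311.FP

open Finset Filter Topology Pool.Agent.V11311.PD Pool.Agent.V11311.PL

open Pool.Agent.Helper894.Collatz (T od period er iter_eq sum_er)

open Pool.Agent.H377R2 (iter_pos)

/-! ### sums over dyadic blocks -/

theorem block_sum {X : Finset ℕ} {Y p K : ℕ} (hY : 0 < Y) (hX : ∀ c ∈ X, 2 ^ p * Y < c ∧ c ≤ 2 ^ K * Y) {h : ℕ → ℝ}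
    (hh : ∀ c, 0 ≤ h c) {B : ℝ}
    (hB : ∀ i, p ≤ i → i < K → ∑ c ∈ X.filter (fun c => 2 ^ i * Y < c ∧ c ≤ 2 ^ (i + 1) * Y), h c ≤ B) :
    ∑ c ∈ X, h c ≤ (K - p : ℕ) * B := by
  classical
  have h1 : ∑ c ∈ X, h c ≤ ∑ c ∈ X, ∑ i ∈ Ico p K, (if 2 ^ i * Y < c ∧ c ≤ 2 ^ (i + 1) * Y then h c else 0) := by
    apply sum_le_sum
    intro c hc
    obtain ⟨h2, h3⟩ := hX c hc
    -- the block of c
    have hex : ∃ i, c ≤ 2 ^ (i + 1) * Y := ⟨K, h3.trans (Nat.mul_le_mul_right Y (Nat.pow_le_pow_right (by norm_num) (by omega)))⟩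
    set i := Nat.find hex with hi
    have h4 : c ≤ 2 ^ (i + 1) * Y := Nat.find_spec hex
    have hpK : p < K := by
      by_contra hcon
      have : 2 ^ K * Y ≤ 2 ^ p * Y := Nat.mul_le_mul_right Y (Nat.pow_le_pow_right (by norm_num) (by omega))
      omega
    have h5 : p ≤ i := by
      by_contra hcon
      have : 2 ^ (i + 1) * Y ≤ 2 ^ p * Y := Nat.mul_le_mul_right Y (Nat.pow_le_pow_right (by norm_num) (by omega))
      omega
    have h6 : i < K := by
      have : i ≤ K - 1 := Nat.find_min' hex (by rw [Nat.sub_add_cancel (by omega)]; exact h3)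
      omega
    have h7 : 2 ^ i * Y < c := by
      rcases Nat.eq_zero_or_pos i with h0 | h0
      · have : 2 ^ i * Y ≤ 2 ^ p * Y := Nat.mul_le_mul_right Y (Nat.pow_le_pow_right (by norm_num) (by omega))
        omega
      · have := Nat.find_min hex (m := i - 1) (by omega)
        rw [Nat.sub_add_cancel h0] at this
        omega
    calc h c = if 2 ^ i * Y < c ∧ c ≤ 2 ^ (i + 1) * Y then h c else 0 := by rw [if_pos ⟨h7, h4⟩]
      _ ≤ ∑ i ∈ Ico p K, (if 2 ^ i * Y < c ∧ c ≤ 2 ^ (i + 1) * Y then h c else 0) := by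
          apply single_le_sum (f := fun i => if 2 ^ i * Y < c ∧ c ≤ 2 ^ (i + 1) * Y then h c else 0)
          · intro i _
            show (0 : ℝ) ≤ if _ then _ else _
            split_ifs
            · exact hh c
            · exact le_rfl
          · rw [mem_Ico]; exact ⟨h5, h6⟩
  rw [sum_comm] at h1
  refine h1.trans ?_
  calc ∑ i ∈ Ico p K, ∑ c ∈ X, (if 2 ^ i * Y < c ∧ c ≤ 2 ^ (i + 1) * Y then h c else 0) ≤ ∑ i ∈ Ico p K, B := by
        apply sum_le_sum
        intro i hi
        rw [mem_Ico] at hi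
        rw [← sum_filter]
        exact hB i hi.1 hi.2
    _ = (K - p : ℕ) * B := by rw [sum_const, Nat.card_Ico, nsmul_eq_mul]

/-! ### the cutting functional -/

theorem posLog_three {b v a P : ℝ} (hb : 0 ≤ b) (hv : 0 < v) (ha : 0 ≤ a) (hP : 0 < P) (hab : a ≤ b) :
    Real.posLog (b / v) - Real.posLog (a / v) - Real.posLog (P / v) ≤ Real.posLog (b / max P (max v a)) := by
  have h0 : ∀ x, 0 ≤ Real.posLog x := fun x => Real.posLog_nonneg
  rcases hb.eq_or_lt with rfl | hb0
  · simp only [zero_div, Real.posLog_zero]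
    have := h0 (a / v)
    have := h0 (P / v)
    linarith
  -- which one is the largest
  have key : ∀ w : ℝ, 0 < w → v ≤ w → Real.posLog (b / v) - Real.posLog (w / v) ≤ Real.posLog (b / w) := by
    intro w hw hvw
    have h1 : b / v = (b / w) * (w / v) := by field_simp
    have := Real.posLog_mul (x := b / w) (y := w / v)
    rw [← h1] at this
    linarith
  rcases le_total P (max v a) with h1 | h1
  · rw [max_eq_right h1]
    rcases le_total v a with h2 | h2
    · rw [max_eq_right h2]
      have := key a (by linarith) h2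
      have := h0 (P / v)
      linarith
    · rw [max_eq_left h2]
      have := h0 (a / v)
      have := h0 (P / v)
      linarith
  · rw [max_eq_left h1]
    have := key P hP ((le_max_left _ _).trans h1)
    have := h0 (a / v)
    linarith

theorem main_low (K m : ℕ) {α β : ℝ} (hα : 0 ≤ α) (hαβ : α ≤ β) :
    TK K β - TK K α - (∑ x ∈ range (2 ^ K), Real.posLog (4 ^ m * Real.exp (- Mx K x))) / 2 ^ K
      ≤ (∑ x ∈ range (2 ^ K), Real.posLog ((β * Real.exp (Sx K x)) /
        max (4 ^ m) (max (Real.exp (Mx K x)) (α * Real.exp (Sx K x))))) / 2 ^ K := by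
  unfold TK
  rw [← sub_div, ← sub_div, ← sum_sub_distrib, ← sum_sub_distrib]
  apply div_le_div_of_nonneg_right _ (by positivity)
  apply sum_le_sum
  intro x _
  have h1 := posLog_three (b := β * Real.exp (Sx K x)) (v := Real.exp (Mx K x)) (a := α * Real.exp (Sx K x))
    (P := 4 ^ m) (mul_nonneg (hα.trans hαβ) (Real.exp_pos _).le) (Real.exp_pos _)
    (mul_nonneg hα (Real.exp_pos _).le) (by positivity) (mul_le_mul_of_nonneg_right hαβ (Real.exp_pos _).le)
  refine le_trans (le_of_eq ?_) h1
  rw [Real.exp_sub, mul_div_assoc, mul_div_assoc, Real.exp_neg, div_eq_mul_inv (4 ^ m)]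

/-- the sums over the launching points of a class -/
theorem class_lim (m K : ℕ) {M r x : ℕ} (hx : x < 2 ^ K) (hr : r < M) (hM : Nat.Coprime M 3) {lo hi : ℝ}
    (hlo : 0 < lo) (hhi : 0 ≤ hi) :
    Tendsto (fun Y : ℝ => ∑ c ∈ Ioc ⌊lo * Y⌋₊ ⌊hi * Y⌋₊, fx m K M r x c / c) atTop
      (𝓝 (2 / Real.log (4 / 3) / (2 ^ K * M) * Real.posLog (hi / lo))) := by
  have hM0 : 0 < M := by omega
  rcases le_or_gt lo hi with h | h
  · have h1 := riem (f := fx m K M r x) (q := 2 ^ K * (M * 3 ^ m)) (by positivity) (fx_per m K M r x) hlo h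
    rw [fx_mean m K hx hr hM] at h1
    have h2 : Real.posLog (hi / lo) = Real.log (hi / lo) := by
      unfold Real.posLog
      rw [max_eq_right]
      exact Real.log_nonneg (by rw [le_div_iff₀ hlo]; linarith)
    rw [h2]
    exact h1
  · have h2 : Real.posLog (hi / lo) = 0 := by
      unfold Real.posLog
      rw [max_eq_left]
      apply Real.log_nonpos (by positivity)
      rw [div_le_one hlo]; exact h.le
    rw [h2, mul_zero]
    apply tendsto_const_nhds.congr'
    filter_upwards [eventually_ge_atTop 0] with Y hY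
    rw [Ioc_eq_empty, sum_empty]
    intro h3
    have := Nat.floor_mono (mul_le_mul_of_nonneg_right h.le hY)
    omega

end Pool.Agent.V11311.FP
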