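import Pool.Agent.V11311.FP.F

/-! The law of the first passage, part G: the lower bound. -/

set_option autoImplicit false

namespace Pool.Agent.V11311.FP

open Finset Filter Topology Pool.Agent.V11311.PD Pool.Agent.V11311.PL

open Pool.Agent.Helper894.Collatz (T od period er iter_eq sum_er)

open Pool.Agent.H377R2 (iter_pos)

/-- the density of `Pr` in the form used in part PD -/
theorem IsD.fd {D : ℕ → ℝ} (h : IsD D) (a : ℕ) : Tendsto (Pool.Agent.H499R2.ND.Fd (Pr a)) atTop (𝓝 (D a / 3)) :=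
  Fd_lim (h a)

/-- lower end of the launching interval -/
noncomputable def lo (K m : ℕ) (α : ℝ) (c : ℕ) : ℝ := max (4 ^ m) (max (Real.exp (Mx K c)) (α * Real.exp (Sx K c)))

/-- upper end -/
noncomputable def hi (K : ℕ) (β : ℝ) (c : ℕ) : ℝ := β * Real.exp (Sx K c)

theorem lo_per (K m : ℕ) (α : ℝ) (c : ℕ) : lo K m α (c % 2 ^ K) = lo K m α c := by
  have h : c = c % 2 ^ K + 2 ^ K * (c / 2 ^ K) := (Nat.mod_add_div c (2 ^ K)).symm
  unfold lo
  have h1 := Mx_per K (c % 2 ^ K) (c / 2 ^ K) K (by omega)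
  have h2 := Sx_per K (c % 2 ^ K) (c / 2 ^ K) K le_rfl
  rw [← h] at h1 h2
  rw [h1, h2]

theorem hi_per (K : ℕ) (β : ℝ) (c : ℕ) : hi K β (c % 2 ^ K) = hi K β c := by
  have h : c = c % 2 ^ K + 2 ^ K * (c / 2 ^ K) := (Nat.mod_add_div c (2 ^ K)).symm
  unfold hi
  have h2 := Sx_per K (c % 2 ^ K) (c / 2 ^ K) K le_rfl
  rw [← h] at h2
  rw [h2]

theorem er_le (K c : ℕ) : er K c ≤ K * 4 ^ K := by
  have h : c = c % 2 ^ K + 2 ^ K * (c / 2 ^ K) := (Nat.mod_add_div c (2 ^ K)).symm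
  have h1 := (period K (c % 2 ^ K) (c / 2 ^ K)).2.2
  rw [← h] at h1
  rw [h1]
  have h2 := sum_er K
  have h3 : er K (c % 2 ^ K) ≤ ∑ x ∈ range (2 ^ K), er K x :=
    single_le_sum (f := fun x => er K x) (fun _ _ => Nat.zero_le _) (mem_range.2 (Nat.mod_lt c (by positivity)))
  omega

/-- the launching candidates -/
noncomputable def Us (K m M r : ℕ) (α β' : ℝ) (Y : ℕ) : Finset ℕ :=
  (Ioc (2 ^ (2 * m) * Y) (2 ^ K * Y)).filter fun c =>
    (⌊lo K m α c * Y⌋₊ < c ∧ c ≤ ⌊hi K β' c * Y⌋₊) ∧ T^[K] c % M = r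

theorem exp_Sx_le (K c : ℕ) : Real.exp (Sx K c) ≤ 2 ^ K := by
  rw [Sx_exp]
  exact div_le_self (by positivity) (one_le_pow₀ (by norm_num))

theorem Us_sum {K m M r : ℕ} {α β' : ℝ} (hβ0 : 0 ≤ β') (hβ1 : β' ≤ 1) (Y : ℕ) :
    ∑ x ∈ range (2 ^ K), ∑ c ∈ Ioc ⌊lo K m α x * Y⌋₊ ⌊hi K β' x * Y⌋₊, fx m K M r x c / c
      = ∑ c ∈ Us K m M r α β' Y, gk m c / c := by
  classical
  have hmap : ∀ c ∈ Us K m M r α β' Y, c % 2 ^ K ∈ range (2 ^ K) := fun c _ => mem_range.2 (Nat.mod_lt c (by positivity))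
  rw [← sum_fiberwise_of_maps_to hmap]
  apply sum_congr rfl
  intro x hx
  rw [mem_range] at hx
  have h1 : (Us K m M r α β' Y).filter (fun c => c % 2 ^ K = x)
      = (Ioc ⌊lo K m α x * Y⌋₊ ⌊hi K β' x * Y⌋₊).filter fun c => c % 2 ^ K = x ∧ T^[K] c % M = r := by
    ext c
    unfold Us
    rw [mem_filter, mem_filter, mem_filter, mem_Ioc, mem_Ioc]
    constructor
    · rintro ⟨⟨h1, ⟨h2, h3⟩, h4⟩, h5⟩
      rw [← lo_per, h5] at h2
      rw [← hi_per, h5] at h3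
      exact ⟨⟨h2, h3⟩, h5, h4⟩
    · rintro ⟨⟨h2, h3⟩, h5, h4⟩
      have h6 : 2 ^ (2 * m) * Y ≤ ⌊lo K m α x * Y⌋₊ := by
        apply Nat.le_floor
        push_cast
        apply mul_le_mul_of_nonneg_right _ (Nat.cast_nonneg _)
        unfold lo
        rw [pow_mul]
        norm_num
      have h7 : ⌊hi K β' x * Y⌋₊ ≤ 2 ^ K * Y := by
        have h8 : hi K β' x * Y ≤ ((2 ^ K * Y : ℕ) : ℝ) := by
          push_cast
          apply mul_le_mul_of_nonneg_right _ (Nat.cast_nonneg _)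
          unfold hi
          calc β' * Real.exp (Sx K x) ≤ 1 * 2 ^ K := mul_le_mul hβ1 (exp_Sx_le K x) (Real.exp_pos _).le zero_le_one
            _ = 2 ^ K := one_mul _
        have := Nat.floor_mono h8
        rwa [Nat.floor_natCast] at this
      refine ⟨⟨⟨by omega, by omega⟩, ⟨?_, ?_⟩, h4⟩, h5⟩
      · rw [← lo_per, h5]; exact h2
      · rw [← hi_per, h5]; exact h3
  rw [h1, sum_filter]
  apply sum_congr rfl
  intro c _
  unfold fx
  by_cases h5 : c % 2 ^ K = x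
  · by_cases h4 : T^[K] c % M = r
    · rw [if_pos h5, if_pos h4, if_pos ⟨h5, h4⟩]
    · rw [if_pos h5, if_neg h4, if_neg (fun h => h4 h.2), zero_div]
  · rw [if_neg h5, if_neg (fun h => h5 h.1), zero_div]

/-- the candidates are launching points unless they are reached from below -/
theorem Us_lau {K m M r : ℕ} {α β β' : ℝ} (hβ1 : β ≤ 1) {Y : ℕ} (hY : (K * 2 ^ K : ℝ) ≤ (β - β') * Y)
    {c : ℕ} (hc : c ∈ Us K m M r α β' Y) (hr : ¬ ∃ b : ℕ, 0 < b ∧ b ≤ Y ∧ ∃ j : ℕ, T^[j] b = c) :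
    Lau Y K (fun z => (α * Y < z ∧ (z : ℝ) ≤ β * Y) ∧ z % M = r) c := by
  unfold Us at hc
  rw [mem_filter, mem_Ioc] at hc
  obtain ⟨⟨h1, h2⟩, ⟨h3, h4⟩, h5⟩ := hc
  have hc0 : 0 < c := by omega
  have hc0R : (0 : ℝ) < c := by exact_mod_cast hc0
  have hY0 : (0 : ℝ) ≤ Y := Nat.cast_nonneg _
  have h6 : lo K m α c * Y < c := (Nat.floor_lt' hc0.ne').1 h3
  have h7 : (c : ℝ) ≤ hi K β' c * Y := (Nat.le_floor_iff' hc0.ne').1 h4
  have h2K : (0 : ℝ) < 2 ^ K := by positivity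
  have htop : ((T^[K] c : ℕ) : ℝ) ≤ β * Y := by
    have h8 : (2 : ℝ) ^ K * (T^[K] c : ℕ) = 3 ^ od K c * c + er K c := by exact_mod_cast iter_eq K c
    have h9 : (er K c : ℝ) ≤ K * 4 ^ K := by exact_mod_cast er_le K c
    have h10 : (3 : ℝ) ^ od K c * c ≤ β' * (2 ^ K * Y) := by
      have h11 : hi K β' c = β' * (2 ^ K / 3 ^ od K c) := by unfold hi; rw [Sx_exp]
      rw [h11] at h7
      calc (3 : ℝ) ^ od K c * c ≤ 3 ^ od K c * (β' * (2 ^ K / 3 ^ od K c) * Y) :=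
            mul_le_mul_of_nonneg_left h7 (by positivity)
        _ = β' * (2 ^ K * Y) := by field_simp
    have h12 : (4 : ℝ) ^ K = 2 ^ K * 2 ^ K := by rw [← mul_pow]; norm_num
    have h13 : (2 : ℝ) ^ K * (T^[K] c : ℕ) ≤ 2 ^ K * (β * Y) := by
      have h14 := mul_le_mul_of_nonneg_left hY h2K.le
      rw [h8]
      rw [h12] at h9
      nlinarith
    exact le_of_mul_le_mul_left h13 h2K
  refine ⟨?_, ?_, ⟨⟨?_, htop⟩, h5⟩, hr⟩
  · intro j hj
    have h8 := growth_low j c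
    have h9 : Real.exp (Sx j c) * Y < c := by
      refine lt_of_le_of_lt ?_ h6
      apply mul_le_mul_of_nonneg_right _ hY0
      calc Real.exp (Sx j c) ≤ Real.exp (Mx K c) := Real.exp_le_exp.2 (Sx_le_Mx hj c)
        _ ≤ lo K m α c := (le_max_left _ _).trans (le_max_right _ _)
    rw [Sx_exp, div_mul_eq_mul_div, div_lt_iff₀ (by positivity)] at h9
    have h10 : (2 : ℝ) ^ j * Y < 2 ^ j * (T^[j] c : ℕ) := by linarith
    have h11 := lt_of_mul_lt_mul_left h10 (by positivity)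
    exact_mod_cast h11
  · have : ((T^[K] c : ℕ) : ℝ) ≤ Y := htop.trans (by nlinarith)
    exact_mod_cast this
  · have h8 := growth_low K c
    have h9 : α * Real.exp (Sx K c) * Y < c := by
      refine lt_of_le_of_lt ?_ h6
      apply mul_le_mul_of_nonneg_right _ hY0
      exact (le_max_right _ _).trans (le_max_right _ _)
    rw [Sx_exp, mul_assoc, div_mul_eq_mul_div, ← mul_div_assoc, div_lt_iff₀ (by positivity)] at h9
    have h10 : (2 : ℝ) ^ K * (α * Y) < 2 ^ K * (T^[K] c : ℕ) := by nlinarith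
    exact lt_of_mul_lt_mul_left h10 (by positivity)

/-- the bad candidates -/
theorem bad_sum : ∃ C : ℝ, 0 < C ∧ ∀ m : ℕ, 1 ≤ m → ∀ᶠ Y : ℕ in atTop, ∀ i : ℕ, 2 * m ≤ i → ∀ S : Finset ℕ,
    (∀ c ∈ S, (2 ^ i * Y < c ∧ c ≤ 2 ^ (i + 1) * Y) ∧
      ¬ (c ∈ Gs ∧ ¬ ∃ b : ℕ, 0 < b ∧ b ≤ Y ∧ ∃ j : ℕ, T^[j] b = c)) →
    ∑ c ∈ S, gk m c / c ≤ 1 / m ^ 2 + C * (3 / 8) ^ m := by
  obtain ⟨C, hC, h⟩ := reach
  have hl43 : 0 < Real.log (4 / 3) := Real.log_pos (by norm_num)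
  refine ⟨2 / Real.log (4 / 3) * C, by positivity, ?_⟩
  intro m hm
  have hm0 : (0 : ℝ) < m := by exact_mod_cast hm
  obtain ⟨y1, hy1⟩ := eventually_atTop.1 (h m)
  obtain ⟨y2, hy2⟩ := eventually_atTop.1 (Gs_bad 1 zero_le_one)
  have hlog : Tendsto (fun Y : ℕ => Real.log Y) atTop atTop := Real.tendsto_log_atTop.comp tendsto_natCast_atTop_atTop
  filter_upwards [tendsto_natCast_atTop_atTop.eventually_ge_atTop (max (max y1 y2) 1),
    hlog.eventually_ge_atTop (max 1 (2 / Real.log (4 / 3) * 3 ^ m * 6 * m ^ 2))] with Y hY1 hY2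
  intro i hi S hS
  classical
  have hYy1 : y1 ≤ Y := (le_max_left _ _).trans ((le_max_left _ _).trans hY1)
  have hYy2 : y2 ≤ Y := (le_max_right _ _).trans ((le_max_left _ _).trans hY1)
  have hY0 : (1 : ℝ) ≤ Y := (le_max_right _ _).trans hY1
  have hL1 : 1 ≤ Real.log Y := (le_max_left _ _).trans hY2
  set y : ℝ := 2 ^ i * Y with hy
  have h2i : (1 : ℝ) ≤ 2 ^ i := one_le_pow₀ (by norm_num)
  have hYy : (Y : ℝ) ≤ y := le_mul_of_one_le_left (by linarith) h2i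
  have hy0 : 0 < y := by linarith
  have hblk : ∀ c ∈ S, y < c ∧ (c : ℝ) ≤ 2 * y := by
    intro c hc
    obtain ⟨⟨h1, h2⟩, _⟩ := hS c hc
    constructor
    · rw [hy]; exact_mod_cast h1
    · rw [hy]
      have : (c : ℝ) ≤ 2 ^ (i + 1) * Y := by exact_mod_cast h2
      rw [pow_succ] at this
      linarith
  set S1 := S.filter fun c => c ∉ Gs with hS1
  set S2 := S.filter fun c => ¬ c ∉ Gs with hS2
  have hcard : S1.card + S2.card = S.card := by
    rw [hS1, hS2]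
    exact card_filter_add_card_filter_not (fun c => c ∉ Gs)
  have c1 := hy2 y (hYy2.trans hYy) S1 (fun a ha => by
    rw [hS1, mem_filter] at ha
    exact ⟨hblk a ha.1, ha.2⟩)
  have c2 := hy1 y (hYy1.trans hYy) S2 (fun a ha => by
    rw [hS2, mem_filter, not_not] at ha
    obtain ⟨haS, haG⟩ := ha
    refine ⟨hblk a haS, haG, ?_⟩
    have h3 := (hS a haS).2
    by_contra hcon
    apply h3
    refine ⟨haG, fun ⟨b, hb, hbY, hj⟩ => hcon ⟨b, hb, ?_, hj⟩⟩
    have h4 : (b : ℝ) ≤ Y := by exact_mod_cast hbY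
    refine h4.trans ?_
    rw [le_div_iff₀ (by positivity), hy]
    have h5 : (4 : ℝ) ^ m ≤ 2 ^ i := by
      calc (4 : ℝ) ^ m = 2 ^ (2 * m) := by rw [pow_mul]; norm_num
        _ ≤ 2 ^ i := pow_le_pow_right₀ (by norm_num) hi
    have := mul_le_mul_of_nonneg_left h5 (by linarith : (0 : ℝ) ≤ Y)
    linarith)
  rw [Real.rpow_one] at c1
  have hcardR : (S.card : ℝ) = S1.card + S2.card := by exact_mod_cast hcard.symm
  have hly : Real.log Y ≤ Real.log y := Real.log_le_log (by linarith) hYy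
  set κ := 2 / Real.log (4 / 3) with hκ
  have hκ0 : 0 < κ := by positivity
  have h1 : ∑ c ∈ S, gk m c / c ≤ S.card * (κ * 3 ^ m / y) := by
    calc ∑ c ∈ S, gk m c / c ≤ ∑ c ∈ S, κ * 3 ^ m / y := by
          apply sum_le_sum
          intro c hc
          have := hblk c hc
          apply div_le_div₀ (by positivity) (gk_le m c) hy0 this.1.le
      _ = S.card * (κ * 3 ^ m / y) := by rw [sum_const, nsmul_eq_mul]
  refine h1.trans ?_
  have h2 : (S.card : ℝ) ≤ (6 / Real.log Y + C / 8 ^ m) * y := by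
    rw [hcardR, add_mul]
    apply add_le_add
    · refine c1.trans ?_
      rw [div_mul_eq_mul_div, mul_div_assoc']
      exact div_le_div_of_nonneg_left (by positivity) (by linarith) hly
    · refine c2.trans (le_of_eq ?_)
      field_simp
  calc (S.card : ℝ) * (κ * 3 ^ m / y) ≤ (6 / Real.log Y + C / 8 ^ m) * y * (κ * 3 ^ m / y) :=
        mul_le_mul_of_nonneg_right h2 (by positivity)
    _ = κ * 3 ^ m * 6 / Real.log Y + κ * C * (3 ^ m / 8 ^ m) := by field_simp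
    _ ≤ 1 / m ^ 2 + κ * C * (3 / 8) ^ m := by
        rw [div_pow]
        apply add_le_add _ le_rfl
        have h3 := (le_max_right _ _).trans hY2
        rw [div_le_div_iff₀ (by linarith) (by positivity), one_mul]
        linarith

/-- THE LOWER BOUND -/
theorem lower {M r : ℕ} (hr : r < M) (hM : Nat.Coprime M 3) : ∃ e : ℕ → ℝ, Tendsto e atTop (𝓝 0) ∧
    ∀ D : ℕ → ℝ, IsD D → ∀ m : ℕ, 1 ≤ m → ∀ α β' β : ℝ, 0 ≤ α → α ≤ β' → β' < β → β ≤ 1 →
    ∀ᶠ Y : ℕ in atTop, ∀ l : ℝ,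
      HasD (fun n => ∃ z, Fp Y n z ∧ ((α * Y < z ∧ (z : ℝ) ≤ β * Y) ∧ z % M = r)) l →
      2 / Real.log (4 / 3) / M * (TK (32 * m + 1) β' - TK (32 * m + 1) α) - e m ≤ l := by
  obtain ⟨C1, hC1, hb1⟩ := block_L1 2
  obtain ⟨C2, hC2, hb2⟩ := bad_sum
  have hl43 : 0 < Real.log (4 / 3) := Real.log_pos (by norm_num)
  have hM0 : 0 < M := by omega
  have hMR : (0 : ℝ) < M := by exact_mod_cast hM0
  set κ := 2 / Real.log (4 / 3) with hκ
  have hκ0 : 0 < κ := by positivity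
  refine ⟨fun m => 31 * ((C1 + 1) * (1 / (m : ℝ))) + 31 * (C2 * (m * (3 / 8) ^ m))
    + κ / M * (Real.log 4 * (m * (2 * rh ^ 32) ^ m)) + 1 / (m : ℝ), ?_, ?_⟩
  · have t1 := tendsto_one_div_atTop_nhds_zero_nat (𝕜 := ℝ)
    have t2 := tendsto_self_mul_const_pow_of_lt_one (r := (3 / 8 : ℝ)) (by norm_num) (by norm_num)
    have t3 : Tendsto (fun m : ℕ => (m : ℝ) * (2 * rh ^ 32) ^ m) atTop (𝓝 0) := by
      apply tendsto_self_mul_const_pow_of_lt_one (by have := rh_pos; positivity)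
      have h1 : rh ^ 32 = (rh ^ 2) ^ 16 := by rw [← pow_mul]
      have h2 : (rh ^ 2) ^ 16 ≤ 0.93303 ^ 16 := pow_le_pow_left₀ (by positivity) rh_sq_le 16
      rw [h1]
      have h3 : (2 : ℝ) * 0.93303 ^ 16 < 1 := by norm_num
      linarith
    have := (((t1.const_mul (C1 + 1)).const_mul 31).add ((t2.const_mul C2).const_mul 31)).add
      ((t3.const_mul (Real.log 4)).const_mul (κ / M)) |>.add t1
    simpa using this
  intro D hD m hm α β' β hα hαβ hββ hβ1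
  have hm0 : (0 : ℝ) < m := by exact_mod_cast hm
  have hm1 : (1 : ℝ) ≤ m := by exact_mod_cast hm
  set K := 32 * m + 1 with hK
  have hβ'0 : 0 ≤ β' := hα.trans hαβ
  have hβ'1 : β' ≤ 1 := by linarith
  -- the main term
  have hW : Tendsto (fun Y : ℝ => ∑ x ∈ range (2 ^ K), ∑ c ∈ Ioc ⌊lo K m α x * Y⌋₊ ⌊hi K β' x * Y⌋₊, fx m K M r x c / c)
      atTop (𝓝 (∑ x ∈ range (2 ^ K), κ / (2 ^ K * M) * Real.posLog (hi K β' x / lo K m α x))) := by
    apply tendsto_finsetSum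
    intro x hx
    rw [mem_range] at hx
    apply class_lim m K hx hr hM
    · unfold lo; positivity
    · unfold hi; positivity
  have hWl : κ / M * (TK K β' - TK K α) - κ / M * (Real.log 4 * (m * (2 * rh ^ 32) ^ m))
      ≤ ∑ x ∈ range (2 ^ K), κ / (2 ^ K * M) * Real.posLog (hi K β' x / lo K m α x) := by
    have h1 := main_low K m hα hαβ
    have h2 := low_part (32 * m) m
    rw [← hK] at h2
    have h3 : (m : ℝ) * Real.log 4 * (2 ^ m * rh ^ (32 * m)) = Real.log 4 * (m * (2 * rh ^ 32) ^ m) := by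
      rw [mul_pow, ← pow_mul]; ring
    rw [h3] at h2
    rw [← mul_sum, ← mul_sub]
    have h4 : κ / (2 ^ K * M) * ∑ x ∈ range (2 ^ K), Real.posLog (hi K β' x / lo K m α x)
        = κ / M * ((∑ x ∈ range (2 ^ K), Real.posLog (hi K β' x / lo K m α x)) / 2 ^ K) := by
      field_simp
    rw [h4]
    apply mul_le_mul_of_nonneg_left _ (by positivity)
    unfold hi lo
    linarith
  have hWn := hW.comp (tendsto_natCast_atTop_atTop (R := ℝ))
  have e1 : ∀ᶠ Y : ℕ in atTop, ∑ x ∈ range (2 ^ K), κ / (2 ^ K * M) * Real.posLog (hi K β' x / lo K m α x) - 1 / m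
      < ∑ x ∈ range (2 ^ K), ∑ c ∈ Ioc ⌊lo K m α x * Y⌋₊ ⌊hi K β' x * Y⌋₊, fx m K M r x c / c :=
    hWn.eventually_const_lt (by have : 0 < 1 / (m : ℝ) := by positivity
                                linarith)
  obtain ⟨y1, hy1⟩ := eventually_atTop.1 (hb1 D (fun a _ => IsD.fd hD a) m hm)
  have e2 : ∀ᶠ Y : ℕ in atTop, (K * 2 ^ K : ℝ) ≤ (β - β') * Y :=
    (tendsto_natCast_atTop_atTop.const_mul_atTop (by linarith : 0 < β - β')).eventually_ge_atTop _
  filter_upwards [e1, e2, hb2 m hm, tendsto_natCast_atTop_atTop.eventually_ge_atTop (max y1 1)] with Y h1 h2 h3 h4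
  intro l hl
  classical
  have hYy1 : y1 ≤ Y := (le_max_left _ _).trans h4
  have hY1 : (1 : ℝ) ≤ Y := (le_max_right _ _).trans h4
  have hY0 : 0 < Y := by
    have : (0 : ℝ) < Y := by linarith
    exact_mod_cast this
  set U := Us K m M r α β' Y with hU
  rw [Us_sum hβ'0 hβ'1] at h1
  set X := U.filter fun c => c ∈ Gs ∧ ¬ ∃ b : ℕ, 0 < b ∧ b ≤ Y ∧ ∃ j : ℕ, T^[j] b = c with hX
  set X' := U.filter fun c => ¬ (c ∈ Gs ∧ ¬ ∃ b : ℕ, 0 < b ∧ b ≤ Y ∧ ∃ j : ℕ, T^[j] b = c) with hX'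
  have hUr : ∀ c ∈ U, 2 ^ (2 * m) * Y < c ∧ c ≤ 2 ^ K * Y := by
    intro c hc
    rw [hU, Us, mem_filter, mem_Ioc] at hc
    exact hc.1
  have hl1 : ∑ c ∈ X, D c ≤ l := by
    apply launch (Y := Y) (K := K) _ hD hl
    intro c hc
    rw [hX, mem_filter] at hc
    exact Us_lau hβ1 h2 hc.1 hc.2.2
  have hsplit : ∑ c ∈ U, gk m c / c = ∑ c ∈ X, gk m c / c + ∑ c ∈ X', gk m c / c := by
    rw [hX, hX']
    exact (sum_filter_add_sum_filter_not U _ _).symm
  have hbad : ∑ c ∈ X', gk m c / c ≤ (K - 2 * m : ℕ) * (1 / m ^ 2 + C2 * (3 / 8) ^ m) := by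
    apply block_sum hY0 (p := 2 * m) (K := K) (fun c hc => hUr c (mem_filter.1 hc).1)
      (h := fun c => gk m c / c) (fun c => div_nonneg (gk_nonneg m c) (Nat.cast_nonneg _))
    intro i hi1 _
    apply h3 i hi1
    intro c hc
    rw [mem_filter, mem_filter] at hc
    exact ⟨hc.2, hc.1.2⟩
  have hL1 : ∑ c ∈ X, |D c - gk m c / c| ≤ (K - 2 * m : ℕ) * (C1 / m ^ 2) := by
    apply block_sum hY0 (p := 2 * m) (K := K) (fun c hc => hUr c (mem_filter.1 hc).1)
      (h := fun c => |D c - gk m c / c|) (fun c => abs_nonneg _)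
    intro i hi1 _
    set y : ℝ := 2 ^ i * Y with hy
    have h2i : (1 : ℝ) ≤ 2 ^ i := one_le_pow₀ (by norm_num)
    have hYy : (Y : ℝ) ≤ y := le_mul_of_one_le_left (by linarith) h2i
    have hy0 : 0 < y := by linarith
    set S := X.filter fun c => 2 ^ i * Y < c ∧ c ≤ 2 ^ (i + 1) * Y with hS
    have hblk : ∀ c ∈ S, y < c ∧ (c : ℝ) ≤ 2 * y := by
      intro c hc
      rw [hS, mem_filter] at hc
      constructor
      · rw [hy]; exact_mod_cast hc.2.1
      · rw [hy]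
        have : (c : ℝ) ≤ 2 ^ (i + 1) * Y := by exact_mod_cast hc.2.2
        rw [pow_succ] at this
        linarith
    have h5 := hy1 y (hYy1.trans hYy) S (fun a ha => by
      have h6 := hblk a ha
      rw [hS, mem_filter, hX, mem_filter] at ha
      exact Gs_sub h6.1 h6.2 ha.1.2.1)
    have h6 : ∀ c ∈ S, |D c - gk m c / c| ≤ |c * D c - 2 / Real.log (4 / 3) * (3 ^ m * pN (4 * m) m c)| / y := by
      intro c hc
      have h7 := hblk c hc
      have hc0 : (0 : ℝ) < c := by linarith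
      have h8 : D c - gk m c / c = (c * D c - 2 / Real.log (4 / 3) * (3 ^ m * pN (4 * m) m c)) / c := by
        unfold gk
        field_simp
      rw [h8, abs_div, abs_of_pos hc0]
      exact div_le_div_of_nonneg_left (abs_nonneg _) hy0 h7.1.le
    refine (sum_le_sum h6).trans ?_
    rw [← sum_div, div_le_iff₀ hy0]
    exact h5
  have hXD : ∑ c ∈ X, gk m c / c - ∑ c ∈ X, |D c - gk m c / c| ≤ ∑ c ∈ X, D c := by
    rw [← sum_sub_distrib]
    apply sum_le_sum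
    intro c _
    have := neg_abs_le (D c - gk m c / c)
    linarith
  have hKm : ((K - 2 * m : ℕ) : ℝ) ≤ 31 * m := by
    have : K - 2 * m ≤ 31 * m := by omega
    exact_mod_cast this
  have f1 : ((K - 2 * m : ℕ) : ℝ) * (1 / m ^ 2 + C2 * (3 / 8) ^ m) ≤ 31 * m * (1 / m ^ 2 + C2 * (3 / 8) ^ m) :=
    mul_le_mul_of_nonneg_right hKm (by positivity)
  have f2 : ((K - 2 * m : ℕ) : ℝ) * (C1 / m ^ 2) ≤ 31 * m * (C1 / m ^ 2) :=
    mul_le_mul_of_nonneg_right hKm (by positivity)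
  have f3 : 31 * (m : ℝ) * (1 / m ^ 2 + C2 * (3 / 8) ^ m) + 31 * m * (C1 / m ^ 2)
      = 31 * ((C1 + 1) * (1 / (m : ℝ))) + 31 * (C2 * (m * (3 / 8) ^ m)) := by
    field_simp
    ring
  linarith

end Pool.Agent.V11311.FP
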