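import Pool.Agent.V11311.PD.P5

/-! Uniform convergence of bounded approximately harmonic functions, and uniform densities of the
almost invariant sets. -/

set_option autoImplicit false

namespace Pool.Agent.V11311.FP

open Finset Filter Topology MeasureTheory

open Pool.Agent.H499R2.HL (II a_pos b_pos b_lt_a a_lt_one net intble II_cauchy)

open Pool.Agent.V11311.PD (II_const_sub Rg Fd_harm_unif)

open Pool.Agent.H499R2.ND (Fd Fd_meas Fd_nonneg Fd_le_one Fd_lip G)

open Pool.Agent.H499R2.LT (AI)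

/-- bounded, almost Lipschitz, approximately harmonic from `t0` on -/
structure HF (L C t0 : ℝ) (F : ℝ → ℝ) : Prop where
  meas : Measurable F
  nonneg : ∀ t, 0 ≤ F t
  le_one : ∀ t, F t ≤ 1
  lip : ∀ t s, t0 ≤ t → 0 ≤ s → s ≤ 1 → |F (t + s) - F t| ≤ L * (s + Real.exp (-t))
  harm : ∀ t, t0 ≤ t → |F t - (F (t - (Real.log 2)) + F (t + (Real.log (3 / 2)))) / 2| ≤ C / t ^ 2

theorem HF.compl {L C t0 : ℝ} {F : ℝ → ℝ} (h : HF L C t0 F) : HF L C t0 fun t => 1 - F t where
  meas := measurable_const.sub h.meas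
  nonneg := fun t => by linarith [h.le_one t]
  le_one := fun t => by linarith [h.nonneg t]
  lip := by
    intro t s ht hs hs1
    have := h.lip t s ht hs hs1
    rw [show 1 - F (t + s) - (1 - F t) = -(F (t + s) - F t) by ring, abs_neg]
    exact this
  harm := by
    intro t ht
    have := h.harm t ht
    rw [show 1 - F t - (1 - F (t - (Real.log 2)) + (1 - F (t + (Real.log (3 / 2))))) / 2
      = -(F t - (F (t - (Real.log 2)) + F (t + (Real.log (3 / 2)))) / 2) by ring, abs_neg]
    exact this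

/-- propagation with uniform constants -/
theorem prop_unif (L : ℝ) {C : ℝ} (hC : 0 ≤ C) : ∀ n : ℕ, ∀ ε : ℝ, 0 < ε → ∃ δ T : ℝ, 0 < δ ∧
    ∀ (F : ℝ → ℝ) (t0 : ℝ), HF L C t0 F → ∀ M τ : ℝ, t0 ≤ τ → T ≤ τ → (∀ t, τ ≤ t → F t < M + δ) →
      ∀ t : ℝ, τ + n ≤ t → M - δ < F t → ∀ i j : ℕ, i + j ≤ n →
        M - ε < F (t + (-(i : ℝ) * (Real.log 2) + j * (Real.log (3 / 2)))) := by
  have ha := a_pos
  have hb := b_pos
  intro n
  induction n with
  | zero =>
    intro ε hε
    refine ⟨ε, 0, hε, fun F t0 hF M τ h1 h2 h3 t ht hFt i j hij => ?_⟩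
    have h1 : i = 0 := by omega
    have h2 : j = 0 := by omega
    subst h1 h2
    simpa using hFt
  | succ n ih =>
    intro ε hε
    obtain ⟨δ', T', hδ', h'⟩ := ih ε hε
    set δ := min (δ' / 4) ε with hδdef
    have hδ : 0 < δ := by positivity
    refine ⟨δ, max T' (2 * C / δ + 1), hδ, fun F t0 hF M τ h1 h2 h3 t ht hFt i j hij => ?_⟩
    push_cast at ht
    have hn : (0 : ℝ) ≤ n := Nat.cast_nonneg n
    have e1 : T' ≤ τ := (le_max_left _ _).trans h2
    have e4 : 2 * C / δ + 1 ≤ τ := (le_max_right _ _).trans h2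
    have ht1 : 1 ≤ t := by
      have : 0 ≤ 2 * C / δ := by positivity
      linarith
    have hCt : C / t ^ 2 ≤ δ / 2 := by
      rw [div_le_iff₀ (by positivity)]
      have h5 : 2 * C ≤ δ * t := by
        have : 2 * C / δ ≤ t := by linarith
        rw [div_le_iff₀ hδ] at this; linarith
      have : t ≤ t ^ 2 := by nlinarith
      nlinarith
    have hh1 := hF.harm t (by linarith)
    rw [abs_le] at hh1
    have hu1 := h3 (t - (Real.log 2)) (by linarith [a_lt_one])
    have hu2 := h3 (t + (Real.log (3 / 2))) (by linarith)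
    have hδ4 : δ ≤ δ' / 4 := min_le_left _ _
    have hv1 : M - δ' < F (t - (Real.log 2)) := by linarith
    have hv2 : M - δ' < F (t + (Real.log (3 / 2))) := by linarith
    have h3' : ∀ t, τ ≤ t → F t < M + δ' := fun t ht => by
      have := h3 t ht
      linarith
    rcases Nat.eq_zero_or_pos i with hi | hi
    · rcases Nat.eq_zero_or_pos j with hj | hj
      · subst hi hj
        simp only [Nat.cast_zero, neg_zero, zero_mul, add_zero]
        have : δ ≤ ε := min_le_right _ _
        linarith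
      · have := h' F t0 hF M τ h1 e1 h3' (t + (Real.log (3 / 2))) (by linarith) hv2 i (j - 1) (by omega)
        rw [Nat.cast_sub (by omega)] at this
        convert this using 2
        push_cast; ring
    · have := h' F t0 hF M τ h1 e1 h3' (t - (Real.log 2)) (by linarith [a_lt_one]) hv1 (i - 1) j (by omega)
      rw [Nat.cast_sub (by omega)] at this
      convert this using 2
      push_cast; ring

/-- near the supremum the conserved quantity is close to its maximum, with uniform constants -/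
theorem close_unif {L C : ℝ} (hL0 : 0 ≤ L) (hC : 0 ≤ C) (ε : ℝ) (hε : 0 < ε) : ∃ δ W T : ℝ, 0 < δ ∧ 0 < W ∧
    ∀ (F : ℝ → ℝ) (t0 : ℝ), HF L C t0 F → ∀ M τ : ℝ, t0 ≤ τ → T ≤ τ → (∀ t, τ ≤ t → F t < M + δ) →
      ∀ t : ℝ, τ + W ≤ t → M - δ < F t → |II F t - ((Real.log 2) - (Real.log (3 / 2))) * M| ≤ ε := by
  have ha := a_pos
  have hb := b_pos
  have hba := b_lt_a
  have ha1 := a_lt_one
  -- mesh
  obtain ⟨η, hη, hη1, hηε⟩ : ∃ η : ℝ, 0 < η ∧ η ≤ 1 ∧ 2 * L * η ≤ ε / 16 := by
    refine ⟨min 1 (ε / (32 * (L + 1))), by positivity, min_le_left _ _, ?_⟩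
    have h2 : min 1 (ε / (32 * (L + 1))) ≤ ε / (32 * (L + 1)) := min_le_right _ _
    calc 2 * L * min 1 (ε / (32 * (L + 1))) ≤ 2 * (L + 1) * (ε / (32 * (L + 1))) := by
          apply mul_le_mul (by linarith) h2 (by positivity) (by positivity)
      _ = ε / 16 := by field_simp; ring
  obtain ⟨n, hn⟩ := net η hη
  obtain ⟨δ1, T1, hδ1, hprop⟩ := prop_unif L hC n (ε / 16) (by positivity)
  -- exponential term
  obtain ⟨T3, hT3⟩ : ∃ T3 : ℝ, ∀ t, T3 ≤ t → L * Real.exp (-t) ≤ ε / 32 := by
    refine ⟨32 * L / ε, fun t ht => ?_⟩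
    have h2 : t + 1 ≤ Real.exp t := Real.add_one_le_exp t
    have ht0 : 0 ≤ t := le_trans (by positivity) ht
    rw [Real.exp_neg, ← div_eq_mul_inv, div_le_iff₀ (Real.exp_pos t)]
    rw [div_le_iff₀ hε] at ht
    nlinarith
  refine ⟨min δ1 (ε / 4), n + 3, max T1 T3, by positivity, by positivity, ?_⟩
  intro F t0 hF M τ h1 h2 h3 t ht hFt
  have hnn : (0 : ℝ) ≤ n := Nat.cast_nonneg n
  have e1 : T1 ≤ τ := (le_max_left _ _).trans h2
  have e4 : T3 ≤ τ := (le_max_right _ _).trans h2
  have hδa : min δ1 (ε / 4) ≤ δ1 := min_le_left _ _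
  have hδb : min δ1 (ε / 4) ≤ ε / 4 := min_le_right _ _
  have h3' : ∀ t, τ ≤ t → F t < M + δ1 := fun t ht => by
    have := h3 t ht
    linarith
  -- pointwise closeness on the window
  have hclose : ∀ u, t - (Real.log 2) ≤ u → u ≤ t + (Real.log (3 / 2)) → |F u - M| ≤ ε / 4 := by
    intro u hu1 hu2
    obtain ⟨i, j, hij, hd⟩ := hn (u - t) (by linarith) (by linarith)
    set p := t + (-(i : ℝ) * (Real.log 2) + j * (Real.log (3 / 2))) with hp
    have hpF : M - ε / 16 < F p := hprop F t0 hF M τ h1 e1 h3' t (by linarith) (by linarith) i j hij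
    have hd' : |u - p| ≤ η := by
      rw [hp, show u - (t + (-(i : ℝ) * (Real.log 2) + j * (Real.log (3 / 2))))
        = u - t - (-(i : ℝ) * (Real.log 2) + j * (Real.log (3 / 2))) by ring]; exact hd
    have hFup : |F u - F p| ≤ ε / 8 := by
      rcases le_total p u with h | h
      · have h2 := hF.lip p (u - p) (by
          rw [abs_le] at hd'; linarith) (by linarith) (by rw [abs_le] at hd'; linarith)
        rw [show p + (u - p) = u by ring] at h2
        have h3 := hT3 p (by rw [abs_le] at hd'; linarith)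
        have h4 : L * (u - p) ≤ L * η := by
          apply mul_le_mul_of_nonneg_left _ hL0
          rw [abs_le] at hd'; linarith
        refine h2.trans ?_
        rw [mul_add]
        have : 0 ≤ L * η := by positivity
        nlinarith
      · have h2 := hF.lip u (p - u) (by linarith) (by linarith) (by rw [abs_le] at hd'; linarith)
        rw [show u + (p - u) = p by ring] at h2
        have h3 := hT3 u (by linarith)
        have h4 : L * (p - u) ≤ L * η := by
          apply mul_le_mul_of_nonneg_left _ hL0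
          rw [abs_le] at hd'; linarith
        rw [abs_sub_comm]
        refine h2.trans ?_
        rw [mul_add]
        have : 0 ≤ L * η := by positivity
        nlinarith
    have hup := h3 u (by linarith)
    rw [abs_le] at hFup ⊢
    constructor <;> linarith
  have hi := intble hF.meas hF.nonneg hF.le_one
  have c1 : |(∫ u in (t - (Real.log 2))..t, F u) - (Real.log 2) * M| ≤ ε / 4 * (Real.log 2) := by
    have e : (∫ u in (t - (Real.log 2))..t, F u) - (Real.log 2) * M = ∫ u in (t - (Real.log 2))..t, (F u - M) := by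
      rw [intervalIntegral.integral_sub (hi _ _) intervalIntegrable_const, intervalIntegral.integral_const,
        smul_eq_mul]
      ring
    rw [e]
    have := intervalIntegral.norm_integral_le_of_norm_le_const (a := t - (Real.log 2)) (b := t)
      (f := fun u => F u - M) (C := ε / 4) (fun u hu => by
        rw [Set.uIoc_of_le (by linarith)] at hu
        rw [Real.norm_eq_abs]
        exact hclose u hu.1.le (by linarith [hu.2]))
    rw [Real.norm_eq_abs, show t - (t - (Real.log 2)) = (Real.log 2) by ring, abs_of_pos ha] at this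
    exact this
  have c2 : |(∫ u in t..(t + (Real.log (3 / 2))), F u) - (Real.log (3 / 2)) * M| ≤ ε / 4 * (Real.log (3 / 2)) := by
    have e : (∫ u in t..(t + (Real.log (3 / 2))), F u) - (Real.log (3 / 2)) * M
        = ∫ u in t..(t + (Real.log (3 / 2))), (F u - M) := by
      rw [intervalIntegral.integral_sub (hi _ _) intervalIntegrable_const, intervalIntegral.integral_const,
        smul_eq_mul]
      ring
    rw [e]
    have := intervalIntegral.norm_integral_le_of_norm_le_const (a := t) (b := t + (Real.log (3 / 2)))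
      (f := fun u => F u - M) (C := ε / 4) (fun u hu => by
        rw [Set.uIoc_of_le (by linarith)] at hu
        rw [Real.norm_eq_abs]
        exact hclose u (by linarith [hu.1]) hu.2)
    rw [Real.norm_eq_abs, show t + (Real.log (3 / 2)) - t = (Real.log (3 / 2)) by ring, abs_of_pos hb] at this
    exact this
  unfold Pool.Agent.H499R2.HL.II
  rw [show (∫ u in (t - (Real.log 2))..t, F u) - (∫ u in t..(t + (Real.log (3 / 2))), F u)
      - ((Real.log 2) - (Real.log (3 / 2))) * M
    = ((∫ u in (t - (Real.log 2))..t, F u) - (Real.log 2) * M)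
      - ((∫ u in t..(t + (Real.log (3 / 2))), F u) - (Real.log (3 / 2)) * M) by ring]
  refine (abs_sub _ _).trans ?_
  nlinarith

/-- the conserved quantity determines the limit -/
theorem flux_lim {L C t0 : ℝ} {F : ℝ → ℝ} (h : HF L C t0 F) (hC : 0 ≤ C) {l : ℝ} (hl : Tendsto F atTop (𝓝 l))
    {t : ℝ} (ht : t0 ≤ t) (ht0 : 0 < t) : |II F t - Real.log (4 / 3) * l| ≤ 2 * C / t := by
  apply le_of_forall_pos_le_add
  intro ε hε
  rw [Metric.tendsto_atTop] at hl
  obtain ⟨T, hT⟩ := hl (ε / 2) (by positivity)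
  set t' := max t (T + 1) with ht'
  have h1 := II_cauchy h.meas h.nonneg h.le_one h.harm hC ht ht0 (le_max_left t (T + 1))
  have h2 : |II F t' - Real.log (4 / 3) * l| ≤ 2 * (ε / 2) := by
    apply II_const_sub (intble h.meas h.nonneg h.le_one)
    intro u hu
    have h3 : T + 1 ≤ t' := le_max_right _ _
    have := hT u (by linarith [a_lt_one])
    rw [Real.dist_eq] at this
    exact this.le
  have h3 := abs_sub_abs_le_abs_sub (II F t - Real.log (4 / 3) * l) (II F t' - Real.log (4 / 3) * l)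
  have h4 : II F t - Real.log (4 / 3) * l - (II F t' - Real.log (4 / 3) * l) = -(II F t' - II F t) := by ring
  rw [h4, abs_neg] at h3
  linarith

/-- UNIFORM CONVERGENCE, upper bound -/
theorem upper_unif {L C : ℝ} (hL0 : 0 ≤ L) (hC : 0 ≤ C) (ε : ℝ) (hε : 0 < ε) : ∃ R T : ℝ, 0 < R ∧
    ∀ (F : ℝ → ℝ) (t0 : ℝ), HF L C t0 F → T ≤ t0 → ∀ l : ℝ, Tendsto F atTop (𝓝 l) →
      ∀ t : ℝ, t0 + R ≤ t → F t ≤ l + ε := by
  have hba := b_lt_a
  have hc43 : Real.log (4 / 3) = Real.log 2 - Real.log (3 / 2) := by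
    rw [← Real.log_div (by norm_num) (by norm_num)]; norm_num
  set c := Real.log 2 - Real.log (3 / 2) with hc
  have hc0 : 0 < c := by linarith
  obtain ⟨δ, W, T0, hδ, hW, hcl⟩ := close_unif hL0 hC (c * ε / 4) (by positivity)
  obtain ⟨N, hN⟩ := exists_nat_gt (2 / δ)
  have hN0 : 0 < N := by
    rcases Nat.eq_zero_or_pos N with h | h
    · subst h
      have : 0 < 2 / δ := by positivity
      simp at hN
      linarith
    · exact h
  have hNR : (0 : ℝ) < N := by exact_mod_cast hN0
  refine ⟨N * W, max (max T0 1) (8 * C / (c * ε)), by positivity, ?_⟩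
  intro F t0 hF hT l hl t ht
  have hT1 : T0 ≤ t0 := (le_max_left _ _).trans ((le_max_left _ _).trans hT)
  have hT2 : 1 ≤ t0 := (le_max_right _ _).trans ((le_max_left _ _).trans hT)
  have hT3 : 8 * C / (c * ε) ≤ t0 := (le_max_right _ _).trans hT
  -- the suprema
  set S : ℝ → ℝ := fun τ => sSup (F '' Set.Ici τ) with hS
  have hbdd : ∀ τ, BddAbove (F '' Set.Ici τ) := fun τ => ⟨1, by rintro _ ⟨u, _, rfl⟩; exact hF.le_one u⟩
  have hSge : ∀ τ u, τ ≤ u → F u ≤ S τ := fun τ u hu => le_csSup (hbdd τ) ⟨u, hu, rfl⟩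
  have hne : ∀ τ, (F '' Set.Ici τ).Nonempty := fun τ => ⟨F τ, τ, Set.self_mem_Ici, rfl⟩
  have hS1 : ∀ τ, S τ ≤ 1 := fun τ => csSup_le (hne τ) (by rintro _ ⟨u, _, rfl⟩; exact hF.le_one u)
  have hS0 : ∀ τ, 0 ≤ S τ := fun τ => (hF.nonneg τ).trans (hSge τ τ le_rfl)
  -- a long window on which the supremum is almost constant
  obtain ⟨k, hk, hkδ⟩ : ∃ k < N, S (t0 + k * W) - S (t0 + (k + 1 : ℕ) * W) ≤ 1 / N := by
    by_contra hcon
    push Not at hcon
    have h1 : ∑ k ∈ range N, (1 / (N : ℝ)) < ∑ k ∈ range N, (S (t0 + k * W) - S (t0 + (k + 1 : ℕ) * W)) := by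
      apply sum_lt_sum_of_nonempty
      · exact ⟨0, mem_range.2 hN0⟩
      · intro k hk
        exact hcon k (mem_range.1 hk)
    rw [sum_const, card_range, nsmul_eq_mul, mul_one_div, div_self hNR.ne'] at h1
    rw [sum_range_sub' (fun k : ℕ => S (t0 + k * W))] at h1
    have h2 := hS1 (t0 + (0 : ℕ) * W)
    have h3 := hS0 (t0 + N * W)
    linarith
  set τ := t0 + k * W with hτ
  set M := S (t0 + (k + 1 : ℕ) * W) with hM
  have hkW : (0 : ℝ) ≤ k * W := by positivity
  have hNδ : 1 / (N : ℝ) < δ := by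
    rw [div_lt_iff₀ hδ] at hN
    rw [div_lt_iff₀ hNR]
    linarith
  have hupb : ∀ t, τ ≤ t → F t < M + δ := by
    intro u hu
    have := hSge τ u hu
    linarith
  obtain ⟨_, ⟨t1, ht1, rfl⟩, hFt1⟩ := exists_lt_of_lt_csSup (hne (t0 + (k + 1 : ℕ) * W)) (by linarith : M - δ < M)
  have ht1' : τ + W ≤ t1 := by
    have h1 : t0 + (k + 1 : ℕ) * W ≤ t1 := ht1
    push_cast at h1
    rw [hτ]
    linarith
  have h1 := hcl F t0 hF M τ (by linarith) (by linarith) hupb t1 ht1' hFt1
  have h2 := flux_lim hF hC hl (by linarith : t0 ≤ t1) (by linarith)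
  have h3 : 2 * C / t1 ≤ c * ε / 4 := by
    rw [div_le_iff₀ (by positivity)] at hT3
    rw [div_le_iff₀ (by linarith)]
    have : t0 * (c * ε) ≤ t1 * (c * ε) := mul_le_mul_of_nonneg_right (by linarith) (by positivity)
    linarith
  have h4 : M ≤ l + ε := by
    have h5 : c * M ≤ c * (l + ε) := by
      rw [abs_le] at h1 h2
      rw [hc43] at h2
      have : 0 < c * ε := by positivity
      linarith [h1.1, h1.2, h2.1, h2.2]
    exact le_of_mul_le_mul_left h5 hc0
  refine (hSge (t0 + (k + 1 : ℕ) * W) t ?_).trans h4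
  have h5 : ((k + 1 : ℕ) : ℝ) ≤ N := by exact_mod_cast hk
  have := mul_le_mul_of_nonneg_right h5 hW.le
  linarith

/-- UNIFORM CONVERGENCE -/
theorem conv_unif {L C : ℝ} (hL0 : 0 ≤ L) (hC : 0 ≤ C) (ε : ℝ) (hε : 0 < ε) : ∃ R T : ℝ, 0 < R ∧
    ∀ (F : ℝ → ℝ) (t0 : ℝ), HF L C t0 F → T ≤ t0 → ∀ l : ℝ, Tendsto F atTop (𝓝 l) →
      ∀ t : ℝ, t0 + R ≤ t → |F t - l| ≤ ε := by
  obtain ⟨R, T, hR, h⟩ := upper_unif hL0 hC ε hε
  refine ⟨R, T, hR, fun F t0 hF hT l hl t ht => ?_⟩
  have h1 := h F t0 hF hT l hl t ht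
  have h2 := h _ t0 hF.compl hT (1 - l) (tendsto_const_nhds.sub hl) t ht
  rw [abs_le]
  constructor <;> linarith

/-- the window densities of the almost invariant sets converge uniformly -/
theorem Fd_unif (ε : ℝ) (hε : 0 < ε) : ∃ Y0 : ℝ, 1 ≤ Y0 ∧ ∀ Y : ℝ, Y0 ≤ Y → ∀ S : Set ℤ, AI 1 (Rg Y) S → ∀ l : ℝ,
    Tendsto (Fd S) atTop (𝓝 l) → ∀ t : ℝ, 1.048 * Real.log Y ≤ t → |Fd S t - l| ≤ ε := by
  obtain ⟨K, hK, h⟩ := Fd_harm_unif 2
  obtain ⟨R, T, hR, hc⟩ := conv_unif (L := 10) (C := K) (by norm_num) hK.le ε hε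
  have hev : ∀ᶠ Y : ℝ in atTop, max (max 27000 T) (R / 0.003) ≤ Real.log Y :=
    Real.tendsto_log_atTop.eventually_ge_atTop _
  obtain ⟨Y0, hY0⟩ := eventually_atTop.1 hev
  refine ⟨max Y0 1, le_max_right _ _, ?_⟩
  intro Y hY S hS l hl t ht
  have hY1 : 1 ≤ Y := (le_max_right _ _).trans hY
  have h1 := hY0 Y ((le_max_left _ _).trans hY)
  have h2 : 27000 ≤ Real.log Y := (le_max_left _ _).trans ((le_max_left _ _).trans h1)
  have h3 : T ≤ Real.log Y := (le_max_right _ _).trans ((le_max_left _ _).trans h1)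
  have h4 : R / 0.003 ≤ Real.log Y := (le_max_right _ _).trans h1
  rw [div_le_iff₀ (by norm_num)] at h4
  apply hc (Fd S) (1.045 * Real.log Y) _ (by linarith) l hl t (by linarith)
  refine ⟨Fd_meas S, Fd_nonneg S, Fd_le_one S, fun t s ht hs hs1 => Fd_lip S t s (by linarith) hs hs1, ?_⟩
  intro u hu
  apply h Y S hS u (by linarith)
  calc Y = Real.exp (Real.log Y) := (Real.exp_log (by linarith)).symm
    _ < Real.exp (0.96 * u) := by
        apply Real.exp_lt_exp.2
        linarith

end Pool.Agent.V11311.FP
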